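import Pool.Agent.H13.G4.Count
import Pool.Agent.H72.G4.Model

/-!
# The charge `4 - s - q` (row T7)

`T` is a disc with boundary `l` whose vertices are real or dummies; a dummy is an inner vertex with
exactly four triangles and real neighbours; adjacent real vertices are joined by an arc; there are no
directed cycles of length two and three.
`s v` = number of real triangles with `v` as source or sink, `q v` = number of dummies adjacent to
`v`. Then the sum of `4 - s v - q v` over the real vertices is `4 + 2 l.length`.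
-/

set_option autoImplicit false

namespace Pool.Agent.H96.G4

open Relation Pool.Agent.H13.DA Pool.Agent.H72.G4 Pool.Agent.H13.G4

/-- real vertices and dummies (all dummies inner, of degree four, with real neighbours) -/
structure Dm {V : Type*} [DecidableEq V] (T : Finset (V × V × V)) (D : V → V → Prop) (l : List V) :
    Prop where
  bd : ∀ x, x ∈ l → Re D x
  ar : ∀ x y z, (x, y, z) ∈ T → Re D x → Re D y → Ar D x y
  du : ∀ x y z, (x, y, z) ∈ T → ¬ Re D x → Re D y
  four : ∀ x, x ∈ verts T → ¬ Re D x → (T.filter (fun t => t.1 = x)).card = 4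
  asymm : ∀ x y, D x y → ¬ D y x
  tri : ∀ x y z, D x y → D y z → ¬ D z x

variable {V : Type*} [DecidableEq V] {T : Finset (V × V × V)} {D : V → V → Prop} {l : List V}

/-- `v` is the source or the sink of the triangle `v y z` -/
def SoSi (D : V → V → Prop) (v y z : V) : Prop := (D v y ∧ D v z) ∨ (D y v ∧ D z v)

open Classical in
/-- number of real triangles with `v` as source or sink -/
noncomputable def sv (T : Finset (V × V × V)) (D : V → V → Prop) (v : V) : ℕ :=
  (T.filter (fun t => t.1 = v ∧ Re D t.2.1 ∧ Re D t.2.2 ∧ SoSi D v t.2.1 t.2.2)).card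

open Classical in
/-- number of dummies adjacent to `v` -/
noncomputable def qv (T : Finset (V × V × V)) (D : V → V → Prop) (v : V) : ℕ :=
  ((verts T).filter (fun y => ¬ Re D y ∧ Adj T v y)).card

open Classical in
/-- the weight of a corner -/
noncomputable def wt (D : V → V → Prop) (t : V × V × V) : ℚ :=
  if ¬ Re D t.1 then 1 else if ¬ Re D t.2.1 ∨ ¬ Re D t.2.2 then 1 / 2
    else if SoSi D t.1 t.2.1 t.2.2 then 1 else 0

theorem Dm.du' (hT : IsCx T) (h : Dm T D l) {x y z : V} (ht : (x, y, z) ∈ T) (hx : ¬ Re D x) :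
    Re D z := by
  by_contra hz
  exact hx (h.du z x y (hT.rot (hT.rot ht)) hz)

omit [DecidableEq V] in
theorem wt_dum {x y z : V} (hx : ¬ Re D x) : wt D (x, y, z) = 1 := by
  unfold wt
  rw [if_pos hx]

omit [DecidableEq V] in
theorem wt_half {x y z : V} (hx : Re D x) (h : ¬ Re D y ∨ ¬ Re D z) : wt D (x, y, z) = 1 / 2 := by
  unfold wt
  rw [if_neg (not_not.2 hx), if_pos h]

omit [DecidableEq V] in
theorem wt_one {x y z : V} (hx : Re D x) (hy : Re D y) (hz : Re D z) (h : SoSi D x y z) :
    wt D (x, y, z) = 1 := by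
  unfold wt
  rw [if_neg (not_not.2 hx), if_neg (not_or.2 ⟨not_not.2 hy, not_not.2 hz⟩), if_pos h]

omit [DecidableEq V] in
theorem wt_zero {x y z : V} (hx : Re D x) (hy : Re D y) (hz : Re D z) (h : ¬ SoSi D x y z) :
    wt D (x, y, z) = 0 := by
  unfold wt
  rw [if_neg (not_not.2 hx), if_neg (not_or.2 ⟨not_not.2 hy, not_not.2 hz⟩), if_neg h]

/-- the total weight of a triangle is two -/
theorem Dm.wt_sum (hT : IsCx T) (h : Dm T D l) (x y z : V) (ht : (x, y, z) ∈ T) :
    wt D (x, y, z) + wt D (y, z, x) + wt D (z, x, y) = 2 := by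
  have ht2 := hT.rot ht
  have ht3 := hT.rot ht2
  by_cases hx : Re D x
  · by_cases hy : Re D y
    · by_cases hz : Re D z
      · have a1 := h.ar _ _ _ ht hx hy
        have a2 := h.ar _ _ _ ht2 hy hz
        have a3 := h.ar _ _ _ ht3 hz hx
        have n1 := h.asymm x y
        have n2 := h.asymm y z
        have n3 := h.asymm z x
        have n4 := h.asymm y x
        have n5 := h.asymm z y
        have n6 := h.asymm x z
        have t1 := h.tri x y z
        have t2 := h.tri x z y
        by_cases b1 : D x y <;> by_cases b2 : D y z <;> by_cases b3 : D z x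
        · exact absurd b3 (t1 b1 b2)
        · -- x → y → z, x → z : y is in the middle
          have c3 : D x z := by rcases a3 with k | k; exact absurd k b3; exact k
          rw [wt_one hx hy hz (Or.inl ⟨b1, c3⟩), wt_zero hy hz hx (by
            rintro (⟨-, k⟩ | ⟨k, -⟩)
            · exact n1 b1 k
            · exact n2 b2 k), wt_one hz hx hy (Or.inr ⟨c3, b2⟩)]
          norm_num
        · -- x → y, z → y, z → x : x is in the middle
          have c2 : D z y := by rcases a2 with k | k; exact absurd k b2; exact k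
          rw [wt_zero hx hy hz (by
            rintro (⟨-, k⟩ | ⟨k, -⟩)
            · exact n3 b3 k
            · exact n1 b1 k), wt_one hy hz hx (Or.inr ⟨c2, b1⟩), wt_one hz hx hy (Or.inl ⟨b3, c2⟩)]
          norm_num
        · -- x → y, z → y, x → z : z is in the middle
          have c2 : D z y := by rcases a2 with k | k; exact absurd k b2; exact k
          have c3 : D x z := by rcases a3 with k | k; exact absurd k b3; exact k
          rw [wt_one hx hy hz (Or.inl ⟨b1, c3⟩), wt_one hy hz hx (Or.inr ⟨c2, b1⟩),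
            wt_zero hz hx hy (by
            rintro (⟨k, -⟩ | ⟨-, k⟩)
            · exact n3 k c3
            · exact n2 k c2)]
          norm_num
        · -- y → x, y → z, z → x : z is in the middle
          have c1 : D y x := by rcases a1 with k | k; exact absurd k b1; exact k
          rw [wt_one hx hy hz (Or.inr ⟨c1, b3⟩), wt_one hy hz hx (Or.inl ⟨b2, c1⟩),
            wt_zero hz hx hy (by
            rintro (⟨-, k⟩ | ⟨k, -⟩)
            · exact n2 b2 k
            · exact n6 k b3)]
          norm_num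
        · -- y → x, y → z, x → z : x is in the middle
          have c1 : D y x := by rcases a1 with k | k; exact absurd k b1; exact k
          have c3 : D x z := by rcases a3 with k | k; exact absurd k b3; exact k
          rw [wt_zero hx hy hz (by
            rintro (⟨k, -⟩ | ⟨-, k⟩)
            · exact n1 k c1
            · exact n6 c3 k), wt_one hy hz hx (Or.inl ⟨b2, c1⟩), wt_one hz hx hy (Or.inr ⟨c3, b2⟩)]
          norm_num
        · -- y → x, z → y, z → x : y is in the middle
          have c1 : D y x := by rcases a1 with k | k; exact absurd k b1; exact k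
          have c2 : D z y := by rcases a2 with k | k; exact absurd k b2; exact k
          rw [wt_one hx hy hz (Or.inr ⟨c1, b3⟩), wt_zero hy hz hx (by
            rintro (⟨k, -⟩ | ⟨-, k⟩)
            · exact n2 k c2
            · exact n4 c1 k), wt_one hz hx hy (Or.inl ⟨b3, c2⟩)]
          norm_num
        · -- y → x → z → y : a directed cycle
          have c1 : D y x := by rcases a1 with k | k; exact absurd k b1; exact k
          have c2 : D z y := by rcases a2 with k | k; exact absurd k b2; exact k
          have c3 : D x z := by rcases a3 with k | k; exact absurd k b3; exact k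
          exact absurd c1 (t2 c3 c2)
      · have hx' := h.du _ _ _ ht3 hz
        have hy' := Dm.du' hT h ht3 hz
        rw [wt_half hx (Or.inr hz), wt_half hy (Or.inl hz), wt_dum hz]
        norm_num
    · have hz := h.du _ _ _ ht2 hy
      rw [wt_half hx (Or.inl hy), wt_dum hy, wt_half hz (Or.inr hy)]
      norm_num
  · have hy := h.du _ _ _ ht hx
    have hz := Dm.du' hT h ht hx
    rw [wt_dum hx, wt_half hy (Or.inr hx), wt_half hz (Or.inl hx)]
    norm_num

/-- the charge of a dummy is zero -/
theorem Dm.cs_dum (h : Dm T D l) {v : V} (hv : v ∈ verts T) (hr : ¬ Re D v) :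
    cs T (wt D) v = 4 := by
  unfold cs
  have h1 : ∀ t ∈ T.filter (fun t => t.1 = v), wt D t = 1 := by
    rintro ⟨x, y, z⟩ ht
    have ht := (Finset.mem_filter.1 ht).2
    simp only at ht
    subst ht
    exact wt_dum hr
  rw [Finset.sum_congr rfl h1, Finset.sum_const, nsmul_eq_mul, mul_one, h.four v hv hr]
  norm_num

/-- adjacency to a dummy is seen in both directions -/
theorem Dm.dir (hl : IsBd T l) (h : Dm T D l) {v y : V} (hy : ¬ Re D y) :
    (Adj T v y ↔ Dir T v y) ∧ (Adj T v y ↔ Dir T y v) := by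
  have k : ∀ {a b : V}, (a = y ∨ b = y) → Dir T a b → Dir T b a := by
    intro a b hab hd
    by_contra hn
    have hb : Bd T a b := bd_dir.2 ⟨hd, hn⟩
    have hc := cyc_mem ((hl.iff a b).1 hb)
    rcases hab with rfl | rfl
    · exact hy (h.bd _ hc.1)
    · exact hy (h.bd _ hc.2)
  refine ⟨⟨?_, Or.inl⟩, ⟨?_, Or.inr⟩⟩
  · rintro (k1 | k1)
    · exact k1
    · exact k (Or.inl rfl) k1
  · rintro (k1 | k1)
    · exact k (Or.inr rfl) k1
    · exact k1

open Classical in
theorem Dm.q_snd (hT : IsCx T) (hl : IsBd T l) (h : Dm T D l) (v : V) :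
    (T.filter (fun t => t.1 = v ∧ ¬ Re D t.2.1)).card = qv T D v := by
  unfold qv
  rw [← Finset.card_image_of_injOn (f := fun t : V × V × V => t.2.1)]
  · congr 1
    ext y
    simp only [Finset.mem_image, Finset.mem_filter]
    constructor
    · rintro ⟨⟨a, b, c⟩, ⟨h1, h2, h3⟩, rfl⟩
      simp only at h2 h3 ⊢
      subst h2
      exact ⟨vert2 hT h1, h3, Or.inl ⟨c, h1⟩⟩
    · rintro ⟨-, h2, h3⟩
      obtain ⟨c, hc⟩ := (h.dir hl h2).1.1 h3
      exact ⟨(v, y, c), ⟨hc, rfl, h2⟩, rfl⟩
  · rintro ⟨a, b, c⟩ h1 ⟨a', b', c'⟩ h2 h3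
    obtain ⟨k1, k2, -⟩ := Finset.mem_filter.1 (Finset.mem_coe.1 h1)
    obtain ⟨k3, k4, -⟩ := Finset.mem_filter.1 (Finset.mem_coe.1 h2)
    simp only at k2 k4 h3
    subst k2 k4 h3
    rw [hT.uniq k1 k3]

open Classical in
theorem Dm.q_thd (hT : IsCx T) (hl : IsBd T l) (h : Dm T D l) (v : V) :
    (T.filter (fun t => t.1 = v ∧ ¬ Re D t.2.2)).card = qv T D v := by
  unfold qv
  rw [← Finset.card_image_of_injOn (f := fun t : V × V × V => t.2.2)]
  · congr 1
    ext y
    simp only [Finset.mem_image, Finset.mem_filter]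
    constructor
    · rintro ⟨⟨a, b, c⟩, ⟨h1, h2, h3⟩, rfl⟩
      simp only at h2 h3 ⊢
      subst h2
      exact ⟨vert3 hT h1, h3, Or.inr ⟨b, hT.rot (hT.rot h1)⟩⟩
    · rintro ⟨-, h2, h3⟩
      obtain ⟨c, hc⟩ := (h.dir hl h2).2.1 h3
      exact ⟨(v, c, y), ⟨hT.rot hc, rfl, h2⟩, rfl⟩
  · rintro ⟨a, b, c⟩ h1 ⟨a', b', c'⟩ h2 h3
    obtain ⟨k1, k2, -⟩ := Finset.mem_filter.1 (Finset.mem_coe.1 h1)
    obtain ⟨k3, k4, -⟩ := Finset.mem_filter.1 (Finset.mem_coe.1 h2)
    simp only at k2 k4 h3
    subst k2 k4 h3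
    rw [hT.uniq (hT.rot (hT.rot k1)) (hT.rot (hT.rot k3))]

/-- the corner sum of a real vertex -/
theorem Dm.cs_real (hT : IsCx T) (hl : IsBd T l) (h : Dm T D l) {v : V} (hr : Re D v) :
    cs T (wt D) v = sv T D v + qv T D v := by
  classical
  have e : ∀ t ∈ T.filter (fun t => t.1 = v), wt D t =
      (if Re D t.2.1 ∧ Re D t.2.2 ∧ SoSi D v t.2.1 t.2.2 then (1 : ℚ) else 0) +
        ((if ¬ Re D t.2.1 then (1 / 2 : ℚ) else 0) + (if ¬ Re D t.2.2 then (1 / 2 : ℚ) else 0)) := by
    rintro ⟨x, y, z⟩ ht0
    obtain ⟨ht, hxv⟩ := Finset.mem_filter.1 ht0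
    simp only at hxv ⊢
    subst hxv
    by_cases hy : Re D y
    · by_cases hz : Re D z
      · by_cases hs : SoSi D x y z
        · rw [wt_one hr hy hz hs, if_pos ⟨hy, hz, hs⟩, if_neg (not_not.2 hy), if_neg (not_not.2 hz)]
          norm_num
        · rw [wt_zero hr hy hz hs, if_neg (fun k => hs k.2.2), if_neg (not_not.2 hy),
            if_neg (not_not.2 hz)]
          norm_num
      · rw [wt_half hr (Or.inr hz), if_neg (fun k => hz k.2.1), if_neg (not_not.2 hy), if_pos hz]
        norm_num
    · have hz : Re D z := h.du _ _ _ (hT.rot ht) hy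
      rw [wt_half hr (Or.inl hy), if_neg (fun k => hy k.1), if_pos hy, if_neg (not_not.2 hz)]
      norm_num
  unfold cs
  rw [Finset.sum_congr rfl e, Finset.sum_add_distrib, Finset.sum_add_distrib]
  have e1 : ∑ t ∈ T.filter (fun t => t.1 = v),
      (if Re D t.2.1 ∧ Re D t.2.2 ∧ SoSi D v t.2.1 t.2.2 then (1 : ℚ) else 0) = sv T D v := by
    rw [Finset.sum_ite, Finset.sum_const_zero, add_zero, Finset.sum_const, nsmul_eq_mul, mul_one,
      Finset.filter_filter]
    rfl
  have e2 : ∑ t ∈ T.filter (fun t => t.1 = v), (if ¬ Re D t.2.1 then (1 / 2 : ℚ) else 0) =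
      qv T D v / 2 := by
    rw [Finset.sum_ite, Finset.sum_const_zero, add_zero, Finset.sum_const, nsmul_eq_mul,
      Finset.filter_filter, h.q_snd hT hl v]
    ring
  have e3 : ∑ t ∈ T.filter (fun t => t.1 = v), (if ¬ Re D t.2.2 then (1 / 2 : ℚ) else 0) =
      qv T D v / 2 := by
    rw [Finset.sum_ite, Finset.sum_const_zero, add_zero, Finset.sum_const, nsmul_eq_mul,
      Finset.filter_filter, h.q_thd hT hl v]
    ring
  rw [e1, e2, e3]
  ring

open Classical in
/-- the sum of the charges -/
theorem Dm.count (hD : Disc T) (hl : IsBd T l) (h : Dm T D l) :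
    ∑ v ∈ (verts T).filter (fun v => Re D v), ((4 : ℤ) - sv T D v - qv T D v) =
      4 + 2 * l.length := by
  have h1 := charge_disc hD hl (wt D) (h.wt_sum hD.cx)
  rw [← Finset.sum_filter_add_sum_filter_not (verts T) (fun v => Re D v)] at h1
  have h2 : ∑ v ∈ (verts T).filter (fun v => ¬ Re D v), (4 - cs T (wt D) v) = 0 := by
    apply Finset.sum_eq_zero
    intro v hv
    have hv := Finset.mem_filter.1 hv
    rw [h.cs_dum hv.1 hv.2, sub_self]
  have h3 : ∑ v ∈ (verts T).filter (fun v => Re D v), (4 - cs T (wt D) v) =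
      ∑ v ∈ (verts T).filter (fun v => Re D v), ((4 : ℚ) - sv T D v - qv T D v) := by
    apply Finset.sum_congr rfl
    intro v hv
    have hv := Finset.mem_filter.1 hv
    rw [h.cs_real hD.cx hl hv.2]
    ring
  rw [h2, h3, add_zero] at h1
  have h4 : ((∑ v ∈ (verts T).filter (fun v => Re D v), ((4 : ℤ) - sv T D v - qv T D v) : ℤ) : ℚ) =
      ((4 + 2 * l.length : ℤ) : ℚ) := by
    push_cast
    exact h1
  exact_mod_cast h4

end Pool.Agent.H96.G4
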