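import Pool.Agent.H96.G4.Flip
import Pool.Agent.H72.G4.Struct

/-!
# M4: in a minimal counterexample every null edge is the diagonal of a directed quad

`MCw.add_arc`: an arc `x → y` along an edge of a disc with the same boundary which carries `D` is
blocked by a directed path `y → o → x` (condition `min2`).
`MCw.null`: a null edge `xy` with real ends has triangles `(x,y,p)`, `(y,x,r)` with
`x → p → y → r → x` or `y → p → x → r → y`.
Proof: blocked both ways, `y → o → x → o' → y`. If `{o, o'} ≠ {p, r}` some blocking vertex `z` is not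
`p, r`, the cycle `x y z` separates `p` from `r` (`jordan`); so `p, r` are not adjacent and have all
common neighbours in `{x, y, z}`; after the flip the arcs `p → r`, `r → p` are blocked, and every
case except the directed quad gives a directed triangle.
-/

set_option autoImplicit false

namespace Pool.Agent.H96.G4

open Relation Pool.Agent.H13.DA Pool.Agent.H72.G4 Pool.Agent.H13.G4

variable {V : Type*} [DecidableEq V] {T : Finset (V × V × V)} {D : V → V → Prop} {a b c : V}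

/-- an arc that can be drawn in a disc carrying `D` is blocked by a directed path of length two -/
theorem add_arc (hpl : Pl T D [a, b, c]) (hout : Out D a b c) (bad : ¬ Solv D (Tr a b c))
    (min2 : ∀ (T' : Finset (V × V × V)) (D' : V → V → Prop) (a' b' c' : V), Pl T' D' [a', b', c'] →
      Out D' a' b' c' → nr D' ≤ nr D → na D < na D' → Solv D' (Tr a' b' c'))
    {T' : Finset (V × V × V)} (hd : Disc T')
    (hb : IsBd T' [a, b, c]) (hadj : ∀ u v, D u v → Adj T' u v) {x y : V} (hxy : Adj T' x y)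
    (hx : Re D x) (hy : Re D y) (hno : ¬ Ar D x y) : ∃ o, D y o ∧ D o x := by
  classical
  by_contra hcon
  have hblk : ∀ o, D y o → ¬ D o x := fun o h1 h2 => hcon ⟨o, h1, h2⟩
  have nxy : x ≠ y := adj_ne hd.cx hxy
  have n1 : ¬ D x y := fun h => hno (Or.inl h)
  have n2 : ¬ D y x := fun h => hno (Or.inr h)
  have hS : ¬ (Tr a b c x ∧ Tr a b c y) := by
    rintro ⟨h1, h2⟩
    obtain ⟨o1, o2, o3⟩ := hout
    rcases h1 with rfl | rfl | rfl <;> rcases h2 with rfl | rfl | rfl
    · exact nxy rfl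
    · exact hno o1
    · exact hno (ar_symm o3)
    · exact hno (ar_symm o1)
    · exact nxy rfl
    · exact hno o2
    · exact hno o3
    · exact hno (ar_symm o2)
    · exact nxy rfl
  set D' : V → V → Prop := fun u v => D u v ∨ (u = x ∧ v = y) with hD'
  have hPl : Pl T' D' [a, b, c] := by
    refine ⟨hd, hb, ?_, ?_, ?_⟩
    · rintro u v (h | ⟨rfl, rfl⟩)
      · exact hadj u v h
      · exact hxy
    · rintro u v (h | ⟨rfl, rfl⟩) (h' | ⟨h1, h2⟩)
      · exact hpl.asymm _ _ h h'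
      · subst h1 h2
        exact n2 h
      · exact n2 h'
      · exact nxy h2
    · rintro u v w (h1 | ⟨e1, e2⟩) (h2 | ⟨e3, e4⟩) (h3 | ⟨e5, e6⟩)
      · exact hpl.tri _ _ _ h1 h2 h3
      · subst e5 e6
        exact hblk _ h1 h2
      · subst e3 e4
        exact hblk _ h3 h1
      · subst e3 e4
        exact nxy e5.symm
      · subst e1 e2
        exact hblk _ h2 h3
      · subst e1 e2
        exact nxy e6
      · subst e1 e2
        exact nxy e3.symm
      · subst e1 e2
        exact nxy e3.symm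
  have hO : Out D' a b c := by
    obtain ⟨o1, o2, o3⟩ := hout
    refine ⟨?_, ?_, ?_⟩
    · rcases o1 with h | h
      · exact Or.inl (Or.inl h)
      · exact Or.inr (Or.inl h)
    · rcases o2 with h | h
      · exact Or.inl (Or.inl h)
      · exact Or.inr (Or.inl h)
    · rcases o3 with h | h
      · exact Or.inl (Or.inl h)
      · exact Or.inr (Or.inl h)
  have hnr : nr D' ≤ nr D := by
    refine Set.ncard_le_ncard ?_ hpl.re_fin
    rintro z ⟨w, (h | ⟨rfl, rfl⟩) | (h | ⟨rfl, rfl⟩)⟩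
    · exact ⟨w, Or.inl h⟩
    · exact hx
    · exact ⟨w, Or.inr h⟩
    · exact hy
  have hna : na D < na D' := by
    refine Set.ncard_lt_ncard ?_ hPl.ar_fin
    refine ⟨fun q hq => Or.inl hq, fun hsub => ?_⟩
    have h1 : ((x, y) : V × V) ∈ {q : V × V | D' q.1 q.2} := Or.inr ⟨rfl, rfl⟩
    exact n1 (hsub h1)
  have hsol := min2 T' D' a b c hPl hO hnr hna
  apply bad
  intro O hO1 hO2
  obtain ⟨O', k1, k2, k3⟩ := hsol O hO1 (by
    rintro u v hu hv (h | ⟨rfl, rfl⟩)
    · exact hO2 u v hu hv h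
    · exact absurd ⟨hu, hv⟩ hS)
  exact ⟨O', k1, fun u v h => k2 u v (Or.inl h), k3⟩

omit [DecidableEq V] in
/-- the six cases after the flip -/
private theorem six (tri : ∀ x y z, D x y → D y z → ¬ D z x) {x y p r z : V}
    (h : (D y z ∧ D z x) ∨ (D x z ∧ D z y)) {s t : V} (hs : s = x ∨ s = y ∨ s = z)
    (ht : t = x ∨ t = y ∨ t = z) (hst : s ≠ t) (a1 : D r s) (a2 : D s p) (a3 : D p t) (a4 : D t r) :
    (D x p ∧ D p y ∧ D y r ∧ D r x) ∨ (D y p ∧ D p x ∧ D x r ∧ D r y) := by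
  rcases hs with rfl | rfl | rfl <;> rcases ht with rfl | rfl | rfl
  · exact absurd rfl hst
  · exact Or.inl ⟨a2, a3, a4, a1⟩
  · -- r → x → p → z → r
    rcases h with ⟨h1, h2⟩ | ⟨h1, h2⟩
    · exact absurd a2 (tri _ _ _ a3 h2)
    · exact absurd a1 (tri _ _ _ h1 a4)
  · exact Or.inr ⟨a2, a3, a4, a1⟩
  · exact absurd rfl hst
  · -- r → y → p → z → r
    rcases h with ⟨h1, h2⟩ | ⟨h1, h2⟩
    · exact absurd a1 (tri _ _ _ h1 a4)
    · exact absurd a2 (tri _ _ _ a3 h2)
  · -- r → z → p → x → r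
    rcases h with ⟨h1, h2⟩ | ⟨h1, h2⟩
    · exact absurd a4 (tri _ _ _ a1 h2)
    · exact absurd a3 (tri _ _ _ h1 a2)
  · -- r → z → p → y → r
    rcases h with ⟨h1, h2⟩ | ⟨h1, h2⟩
    · exact absurd a3 (tri _ _ _ h1 a2)
    · exact absurd a4 (tri _ _ _ a1 h2)
  · exact absurd rfl hst

/-- M4 -/
theorem null_quad (hpl : Pl T D [a, b, c]) (hout : Out D a b c) (bad : ¬ Solv D (Tr a b c))
    (min2 : ∀ (T' : Finset (V × V × V)) (D' : V → V → Prop) (a' b' c' : V), Pl T' D' [a', b', c'] →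
      Out D' a' b' c' → nr D' ≤ nr D → na D < na D' → Solv D' (Tr a' b' c'))
    (hre : ∀ v, v ∈ verts T → Re D v) {x y : V} (hxy : Adj T x y) (hno : ¬ Ar D x y) :
    ∃ p r, (x, y, p) ∈ T ∧ (y, x, r) ∈ T ∧
      ((D x p ∧ D p y ∧ D y r ∧ D r x) ∨ (D y p ∧ D p x ∧ D x r ∧ D r y)) := by
  classical
  have hT := hpl.disc.cx
  have nxy : x ≠ y := adj_ne hT hxy
  -- the edge is inner
  have hin : ∀ {u v : V}, Adj T u v → ¬ Ar D u v → Dir T u v := by
    intro u v h1 h2
    rcases adj_dir.1 h1 with h | h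
    · exact h
    · by_contra hn
      have hb := (hpl.bd.iff v u).1 (bd_dir.2 ⟨h, hn⟩)
      have e : Cyc [a, b, c] v u ↔ (v = a ∧ u = b) ∨ (v = b ∧ u = c) ∨ (v = c ∧ u = a) := by
        simp [Cyc, Nx]
      obtain ⟨o1, o2, o3⟩ := hout
      rcases e.1 hb with ⟨rfl, rfl⟩ | ⟨rfl, rfl⟩ | ⟨rfl, rfl⟩
      · exact h2 (ar_symm o1)
      · exact h2 (ar_symm o2)
      · exact h2 (ar_symm o3)
  obtain ⟨p, hp⟩ := hin hxy hno
  obtain ⟨r, hr⟩ := hin hxy.symm (fun h => hno (ar_symm h))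
  refine ⟨p, r, hp, hr, ?_⟩
  have hrx : Re D x := hre x (vert1 hp)
  have hry : Re D y := hre y (vert1 hr)
  have hrp : Re D p := hre p (vert3 hT hp)
  have hrr : Re D r := hre r (vert3 hT hr)
  obtain ⟨o, o1, o2⟩ := add_arc hpl hout bad min2 hpl.disc hpl.bd hpl.adj hxy hrx hry hno
  obtain ⟨o', o3, o4⟩ := add_arc hpl hout bad min2 hpl.disc hpl.bd hpl.adj hxy.symm hry hrx
    (fun h => hno (ar_symm h))
  -- `y → o → x → o' → y`
  have noo : o ≠ o' := by
    rintro rfl
    exact hpl.asymm _ _ o1 o4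
  by_cases hz : ∃ z, z ≠ p ∧ z ≠ r ∧ ((D y z ∧ D z x) ∨ (D x z ∧ D z y))
  · obtain ⟨z, zp, zr, hz⟩ := hz
    have azx : Adj T z x := by
      rcases hz with ⟨_, h⟩ | ⟨h, _⟩
      · exact hpl.adj _ _ h
      · exact (hpl.adj _ _ h).symm
    have ayz : Adj T y z := by
      rcases hz with ⟨h, _⟩ | ⟨_, h⟩
      · exact hpl.adj _ _ h
      · exact (hpl.adj _ _ h).symm
    have nzx : z ≠ x := adj_ne hT azx
    have nyz : y ≠ z := adj_ne hT ayz
    have px : p ≠ x := hT.ne (hT.rot (hT.rot hp))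
    have py : p ≠ y := (hT.ne (hT.rot hp)).symm
    have rx : r ≠ x := (hT.ne (hT.rot hr)).symm
    have ry : r ≠ y := hT.ne (hT.rot (hT.rot hr))
    have hnd : [x, y, z].Nodup := by
      simp only [List.nodup_cons, List.mem_cons, List.not_mem_nil, or_false, not_or,
        not_false_eq_true, List.nodup_nil, and_true]
      exact ⟨⟨nxy, nzx.symm⟩, nyz⟩
    have hcy : ∀ u v, Cyc [x, y, z] u v ↔ (u = x ∧ v = y) ∨ (u = y ∧ v = z) ∨ (u = z ∧ v = x) := by
      intro u v
      simp [Cyc, Nx]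
    obtain ⟨X, hX, hDX, hbX, hvX⟩ := jordan hpl.disc hnd (by simp) (by
      intro u v h
      rcases (hcy u v).1 h with ⟨rfl, rfl⟩ | ⟨rfl, rfl⟩ | ⟨rfl, rfl⟩
      · exact hxy
      · exact ayz
      · exact azx)
    -- exactly one of the two triangles is in `X`
    have hcr : ∀ u v, Cyc [x, y, z].reverse u v ↔
        (u = z ∧ v = y) ∨ (u = y ∧ v = x) ∨ (u = x ∧ v = z) := by
      intro u v
      simp [Cyc, Nx]
    have side : ∃ s t, ((s = p ∧ t = r) ∨ (s = r ∧ t = p)) ∧ s ∈ verts X ∧ t ∈ verts (T \ X) := by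
      rcases hbX with hbX | hbX
      · obtain ⟨⟨w, hw⟩, hn⟩ := bd_cyc hbX ((hcy x y).2 (Or.inl ⟨rfl, rfl⟩))
        have e := hT.uniq (hX hw) hp
        subst e
        refine ⟨w, r, Or.inl ⟨rfl, rfl⟩, vert3 hDX.cx hw, ?_⟩
        have h1 : (y, x, r) ∈ T \ X := Finset.mem_sdiff.2 ⟨hr, fun h => hn ⟨r, h⟩⟩
        exact vert3 (sdiff_isCx hT hDX.cx) h1
      · obtain ⟨⟨w, hw⟩, hn⟩ := bd_cyc hbX ((hcr y x).2 (Or.inr (Or.inl ⟨rfl, rfl⟩)))
        have e := hT.uniq (hX hw) hr
        subst e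
        refine ⟨w, p, Or.inr ⟨rfl, rfl⟩, vert3 hDX.cx hw, ?_⟩
        have h1 : (x, y, p) ∈ T \ X := Finset.mem_sdiff.2 ⟨hp, fun h => hn ⟨p, h⟩⟩
        exact vert3 (sdiff_isCx hT hDX.cx) h1
    obtain ⟨s, t, hst, hs, ht⟩ := side
    have hmem : ∀ v, v ∈ [x, y, z] ↔ v = x ∨ v = y ∨ v = z := by
      intro v
      simp
    have hpr : ∀ w, w = p ∨ w = r → w ∉ [x, y, z] := by
      intro w hw h
      rcases (hmem w).1 h with rfl | rfl | rfl
      · rcases hw with h | h
        · exact px h.symm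
        · exact rx h.symm
      · rcases hw with h | h
        · exact py h.symm
        · exact ry h.symm
      · rcases hw with h | h
        · exact zp h
        · exact zr h
    have hs' : s ∉ verts (T \ X) := fun h => hpr s (by
      rcases hst with ⟨h1, _⟩ | ⟨h1, _⟩
      · exact Or.inl h1
      · exact Or.inr h1) (hvX s hs h)
    have ht' : t ∉ verts X := fun h => hpr t (by
      rcases hst with ⟨_, h1⟩ | ⟨_, h1⟩
      · exact Or.inr h1
      · exact Or.inl h1) (hvX t h ht)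
    -- vertices of a triangle are on the same side
    have cY := sdiff_isCx hT hDX.cx
    have hadjside : ∀ {u v : V}, Adj T u v → (u ∈ verts X ∧ v ∈ verts X) ∨
        (u ∈ verts (T \ X) ∧ v ∈ verts (T \ X)) := by
      intro u v h
      rcases h with ⟨w, hw⟩ | ⟨w, hw⟩
      · by_cases hm : (u, v, w) ∈ X
        · exact Or.inl ⟨vert1 hm, vert2 hDX.cx hm⟩
        · have hm' : (u, v, w) ∈ T \ X := Finset.mem_sdiff.2 ⟨hw, hm⟩
          exact Or.inr ⟨vert1 hm', vert2 cY hm'⟩
      · by_cases hm : (v, u, w) ∈ X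
        · exact Or.inl ⟨vert2 hDX.cx hm, vert1 hm⟩
        · have hm' : (v, u, w) ∈ T \ X := Finset.mem_sdiff.2 ⟨hw, hm⟩
          exact Or.inr ⟨vert2 cY hm', vert1 hm'⟩
    have nst : ¬ Adj T s t := by
      intro h
      rcases hadjside h with ⟨_, h2⟩ | ⟨h1, _⟩
      · exact ht' h2
      · exact hs' h1
    have hcom : ∀ w, Adj T w s → Adj T w t → w = x ∨ w = y ∨ w = z := by
      intro w h1 h2
      have k1 : w ∈ verts X := by
        rcases hadjside h1 with ⟨k, _⟩ | ⟨_, k⟩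
        · exact k
        · exact absurd k hs'
      have k2 : w ∈ verts (T \ X) := by
        rcases hadjside h2 with ⟨_, k⟩ | ⟨k, _⟩
        · exact absurd k ht'
        · exact k
      exact (hmem w).1 (hvX w k1 k2)
    have npr : p ≠ r := by
      rintro rfl
      rcases hst with ⟨rfl, rfl⟩ | ⟨rfl, rfl⟩
      · exact hs' ht
      · exact hs' ht
    have hnpr : ¬ Adj T p r := by
      rcases hst with ⟨rfl, rfl⟩ | ⟨rfl, rfl⟩
      · exact nst
      · exact fun h => nst h.symm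
    have hcom' : ∀ w, Adj T w p → Adj T w r → w = x ∨ w = y ∨ w = z := by
      rcases hst with ⟨rfl, rfl⟩ | ⟨rfl, rfl⟩
      · exact hcom
      · exact fun w h1 h2 => hcom w h2 h1
    -- the flip
    obtain ⟨T', f1, f2, f3, -, -, -⟩ := flip hpl.disc hp hr npr hnpr
    have hadj' : ∀ u v, D u v → Adj T' u v := by
      intro u v h
      refine (f3 u v).2 (Or.inl ⟨hpl.adj _ _ h, ?_, ?_⟩)
      · rintro ⟨rfl, rfl⟩
        exact hno (Or.inl h)
      · rintro ⟨rfl, rfl⟩
        exact hno (Or.inr h)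
    have apr : Adj T' p r := (f3 p r).2 (Or.inr (Or.inl ⟨rfl, rfl⟩))
    have hnoar : ¬ Ar D p r := fun h => hnpr (hpl.ar_adj h)
    obtain ⟨u, u1, u2⟩ := add_arc hpl hout bad min2 f1 (f2 _ hpl.bd) hadj' apr hrp hrr hnoar
    obtain ⟨v, v1, v2⟩ := add_arc hpl hout bad min2 f1 (f2 _ hpl.bd) hadj' apr.symm hrr hrp
      (fun h => hnoar (ar_symm h))
    -- `r → u → p → v → r`
    have hu := hcom' u (hpl.adj _ _ u2) (hpl.adj _ _ u1).symm
    have hv := hcom' v (hpl.adj _ _ v1).symm (hpl.adj _ _ v2)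
    have huv : u ≠ v := by
      rintro rfl
      exact hpl.asymm _ _ u2 v1
    exact six hpl.tri hz hu hv huv u1 u2 v1 v2
  · have h1 : o = p ∨ o = r := by
      by_contra hn
      rw [not_or] at hn
      exact hz ⟨o, hn.1, hn.2, Or.inl ⟨o1, o2⟩⟩
    have h2 : o' = p ∨ o' = r := by
      by_contra hn
      rw [not_or] at hn
      exact hz ⟨o', hn.1, hn.2, Or.inr ⟨o3, o4⟩⟩
    rcases h1 with rfl | rfl <;> rcases h2 with rfl | rfl
    · exact absurd rfl noo
    · exact Or.inr ⟨o1, o2, o3, o4⟩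
    · exact Or.inl ⟨o3, o4, o1, o2⟩
    · exact absurd rfl noo

end Pool.Agent.H96.G4
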