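import Pool.Agent.H96.G4.Four

/-!
# 4-cycles and 5-cycles together: the context of the discharging

`Fam T X D Z` : `X` is the region of a chordless real cycle `Z` of length four with an inner real
vertex, or of length five with at least two inner real vertices.
`Ctx T X D a b c Z` : the context: all inner real vertices of `X` are good; the regions inside `X`
of chordless 4-cycles (5-cycles) through an inner vertex of `X` have no (at most one) inner real
vertex; `X` is the whole disc, or `Rg` holds and `Z` has length four or five.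
`ctx_cases` : there is a context, or the star of four real faces, or a chordless 5-cycle with
exactly two inner real vertices.
-/

set_option autoImplicit false

namespace Pool.Agent.H96.G4

open Relation Pool.Agent.H13.DA Pool.Agent.H72.G4 Pool.Agent.H13.G4

variable {V : Type*} [DecidableEq V] {T X Y : Finset (V × V × V)} {D : V → V → Prop} {a b c : V}
  {Z C : List V}

/-- the vertices counted by `nin` -/
theorem nin_pos (h : ∃ u, u ∈ verts X ∧ Re D u ∧ u ∉ Z) : 1 ≤ nin X D Z := by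
  classical
  unfold nin
  obtain ⟨u, h1, h2, h3⟩ := h
  exact Finset.card_pos.2 ⟨u, Finset.mem_filter.2 ⟨h1, h2, h3⟩⟩

theorem nin_inn (h : 1 ≤ nin X D Z) : ∃ u, u ∈ verts X ∧ Re D u ∧ u ∉ Z := by
  classical
  unfold nin at h
  obtain ⟨u, hu⟩ := Finset.card_pos.1 h
  obtain ⟨h1, h2⟩ := Finset.mem_filter.1 hu
  exact ⟨u, h1, h2⟩

theorem nin_two (h : 2 ≤ nin X D Z) : ∃ u w, u ≠ w ∧ (u ∈ verts X ∧ Re D u ∧ u ∉ Z) ∧
    (w ∈ verts X ∧ Re D w ∧ w ∉ Z) := by
  classical
  unfold nin at h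
  obtain ⟨u, hu, w, hw, hne⟩ := Finset.one_lt_card.1 h
  obtain ⟨h1, h2⟩ := Finset.mem_filter.1 hu
  obtain ⟨h3, h4⟩ := Finset.mem_filter.1 hw
  exact ⟨u, w, hne, ⟨h1, h2⟩, ⟨h3, h4⟩⟩

theorem nin_two' {u w : V} (hne : u ≠ w) (hu : u ∈ verts X ∧ Re D u ∧ u ∉ Z)
    (hw : w ∈ verts X ∧ Re D w ∧ w ∉ Z) : 2 ≤ nin X D Z := by
  classical
  unfold nin
  exact Finset.one_lt_card.2 ⟨u, Finset.mem_filter.2 ⟨hu.1, hu.2⟩, w,
    Finset.mem_filter.2 ⟨hw.1, hw.2⟩, hne⟩

/-- another inner vertex -/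
theorem nin_other (h : 2 ≤ nin X D Z) (w : V) :
    ∃ u, u ∈ verts X ∧ Re D u ∧ u ∉ Z ∧ u ≠ w := by
  obtain ⟨u, u', hne, ⟨h1, h2, h3⟩, ⟨h4, h5, h6⟩⟩ := nin_two h
  by_cases e : u = w
  · exact ⟨u', h4, h5, h6, fun h => hne (e.trans h.symm)⟩
  · exact ⟨u, h1, h2, h3, e⟩

/-- the family of cycles -/
structure Fam (T X : Finset (V × V × V)) (D : V → V → Prop) (Z : List V) : Prop where
  reg : Reg T X D Z
  chl : Chl D Z
  sz : (Z.length = 4 ∧ 1 ≤ nin X D Z) ∨ (Z.length = 5 ∧ 2 ≤ nin X D Z)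

/-- a smallest element -/
structure MinF (T X : Finset (V × V × V)) (D : V → V → Prop) (Z : List V) : Prop
    extends Fam T X D Z where
  min : ∀ X' Z', Fam T X' D Z' → nin X D Z ≤ nin X' D Z'

theorem exists_minF (h : ∃ X Z, Fam T X D Z) : ∃ X Z, MinF T X D Z := by
  classical
  have h' : ∃ n, ∃ X Z, Fam T X D Z ∧ nin X D Z = n := by
    obtain ⟨X, Z, hX⟩ := h
    exact ⟨_, X, Z, hX, rfl⟩
  obtain ⟨X, Z, hX, hn⟩ := Nat.find_spec h'
  refine ⟨X, Z, hX, fun X' Z' hX' => ?_⟩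
  rw [hn]
  exact Nat.find_min' h' ⟨X', Z', hX', rfl⟩

/-- inner vertices of a region inside a region -/
theorem reg_inn (hR : Reg T X D Z) (hY : Reg T Y D C) (h : Y ⊆ X) :
    ∀ v, v ∈ verts Y → v ∉ C → v ∈ verts X ∧ v ∉ Z := by
  intro v hv hvC
  refine ⟨verts_mono h hv, inner_off hR.disc.cx hY.disc.cx h hY.bd hR.bd ?_ hv hvC⟩
  intro x hx hx'
  exact hY.sep x hx (verts_mono (Finset.sdiff_subset_sdiff hR.sub (Finset.Subset.refl _)) hx')

/-- a region inside a smallest one whose boundary has an inner vertex is not in the family -/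
theorem MinF.notFam (hM : MinF T X D Z) (hY : Reg T Y D C) (h : Y ⊆ X)
    {w : V} (hw : w ∈ C) (hwZ : w ∉ Z) : ¬ Fam T Y D C := by
  intro hF
  have h1 := hM.min Y C hF
  have h2 : nin Y D C < nin X D Z := by
    refine nin_lt (fun v hv _ hvC => reg_inn hM.reg hY h v hv hvC) (w := w)
      (verts_mono h (hY.bd.verts hY.disc.cx hw)) (hY.re w hw) hwZ (fun _ => hw)
  omega

theorem MinF.four (hM : MinF T X D Z) (hY : Reg T Y D C) (h : Y ⊆ X)
    {w : V} (hw : w ∈ C) (hwZ : w ∉ Z) (hC : Chl D C) (h4 : C.length = 4) : nin Y D C = 0 := by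
  by_contra hc
  exact hM.notFam hY h hw hwZ ⟨hY, hC, Or.inl ⟨h4, by omega⟩⟩

theorem MinF.five (hM : MinF T X D Z) (hY : Reg T Y D C) (h : Y ⊆ X)
    {w : V} (hw : w ∈ C) (hwZ : w ∉ Z) (hC : Chl D C) (h5 : C.length = 5) : nin Y D C ≤ 1 := by
  by_contra hc
  exact hM.notFam hY h hw hwZ ⟨hY, hC, Or.inr ⟨h5, by omega⟩⟩

/-- a 4-cycle through an inner vertex, possibly with a chord at that vertex -/
theorem MinF.part4 (hM : MinF T X D Z) (hT : Ts T D a b c) {x y z w : V}
    (hwT : ¬ Tr a b c w) (hwZ : w ∉ Z)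
    (hR : Reg T Y D [x, y, z, w]) (hYX : Y ⊆ X)
    (hxz : ¬ Ar D x z) (hyw : Ar D y w → Adj Y y w) :
    ∀ u, u ∈ verts Y → Re D u → u ∈ [x, y, z, w] := by
  have cT := hT.pl.disc.cx
  have irr : ∀ u, ¬ D u u := fun u h => hT.pl.asymm u u h h
  intro u hu hur
  by_contra hc
  by_cases hh : Ar D y w
  · have hR' : Reg T Y D (y :: ([z] ++ w :: [x])) := reg_rot hR ⟨1, by simp [List.rotate]⟩
    obtain ⟨A, B, e, s1, s2, r1, r2, -⟩ := reg_chord cT hR' (by simp) (by simp) (hyw hh)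
    rw [e, verts_union, Finset.mem_union] at hu
    rcases hu with hu | hu
    · rcases reg_tri hT r1 (fun h => hwT h.2.2) u hu with rfl | rfl | rfl
      · exact hc (by simp)
      · exact hc (by simp)
      · exact hc (by simp)
    · rcases reg_tri hT r2 (fun h => hwT h.1) u hu with rfl | rfl | rfl
      · exact hc (by simp)
      · exact hc (by simp)
      · exact hc (by simp)
  · have hch : Chl D [x, y, z, w] := chl4 irr
      (bd_ar hT hR (cyc4_iff.2 (Or.inl ⟨rfl, rfl⟩)))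
      (bd_ar hT hR (cyc4_iff.2 (Or.inr (Or.inl ⟨rfl, rfl⟩))))
      (bd_ar hT hR (cyc4_iff.2 (Or.inr (Or.inr (Or.inl ⟨rfl, rfl⟩)))))
      (bd_ar hT hR (cyc4_iff.2 (Or.inr (Or.inr (Or.inr ⟨rfl, rfl⟩))))) hxz hh
    have h1 := hM.four hR hYX (w := w) (by simp) hwZ hch rfl
    have h2 := nin_pos ⟨u, hu, hur, hc⟩
    omega

omit [DecidableEq V] in
theorem chl5 {x y y' z w : V} (irr : ∀ x, ¬ D x x) (h1 : Ar D x y) (h2 : Ar D y y')
    (h3 : Ar D y' z) (h4 : Ar D z w) (h5 : Ar D w x) (n1 : ¬ Ar D x y') (n2 : ¬ Ar D x z)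
    (n3 : ¬ Ar D y z) (n4 : ¬ Ar D y w) (n5 : ¬ Ar D y' w) : Chl D [x, y, y', z, w] := by
  have irr' : ∀ x, ¬ Ar D x x := fun x h => h.elim (irr x) (irr x)
  refine ⟨?_, ?_⟩
  · intro p q h
    rcases cyc5_iff.1 h with ⟨rfl, rfl⟩ | ⟨rfl, rfl⟩ | ⟨rfl, rfl⟩ | ⟨rfl, rfl⟩ | ⟨rfl, rfl⟩
    · exact h1
    · exact h2
    · exact h3
    · exact h4
    · exact h5
  · intro p q hp hq h
    simp only [List.mem_cons, List.not_mem_nil, or_false] at hp hq
    rw [cyc5_iff, cyc5_iff]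
    rcases hp with rfl | rfl | rfl | rfl | rfl <;> rcases hq with rfl | rfl | rfl | rfl | rfl
    · exact absurd h (irr' _)
    · exact Or.inl (Or.inl ⟨rfl, rfl⟩)
    · exact absurd h n1
    · exact absurd h n2
    · exact Or.inr (Or.inr (Or.inr (Or.inr (Or.inr ⟨rfl, rfl⟩))))
    · exact Or.inr (Or.inl ⟨rfl, rfl⟩)
    · exact absurd h (irr' _)
    · exact Or.inl (Or.inr (Or.inl ⟨rfl, rfl⟩))
    · exact absurd h n3
    · exact absurd h n4
    · exact absurd (ar_symm h) n1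
    · exact Or.inr (Or.inr (Or.inl ⟨rfl, rfl⟩))
    · exact absurd h (irr' _)
    · exact Or.inl (Or.inr (Or.inr (Or.inl ⟨rfl, rfl⟩)))
    · exact absurd h n5
    · exact absurd (ar_symm h) n2
    · exact absurd (ar_symm h) n3
    · exact Or.inr (Or.inr (Or.inr (Or.inl ⟨rfl, rfl⟩)))
    · exact absurd h (irr' _)
    · exact Or.inl (Or.inr (Or.inr (Or.inr (Or.inl ⟨rfl, rfl⟩))))
    · exact Or.inl (Or.inr (Or.inr (Or.inr (Or.inr ⟨rfl, rfl⟩))))
    · exact absurd (ar_symm h) n4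
    · exact absurd (ar_symm h) n5
    · exact Or.inr (Or.inr (Or.inr (Or.inr (Or.inl ⟨rfl, rfl⟩))))
    · exact absurd h (irr' _)

/-- adjacency in a union of two pieces -/
theorem adj_cup {A B : Finset (V × V × V)} (e : X = A ∪ B) {x y : V} (h : Adj X x y) :
    Adj A x y ∨ Adj B x y := by
  rcases h with ⟨t, ht⟩ | ⟨t, ht⟩
  · rw [e, Finset.mem_union] at ht
    rcases ht with ht | ht
    · exact Or.inl (Or.inl ⟨t, ht⟩)
    · exact Or.inr (Or.inl ⟨t, ht⟩)
  · rw [e, Finset.mem_union] at ht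
    rcases ht with ht | ht
    · exact Or.inl (Or.inr ⟨t, ht⟩)
    · exact Or.inr (Or.inr ⟨t, ht⟩)

/-- a 5-cycle through an inner vertex `w`, possibly with chords at `w` -/
theorem MinF.part5 (hM : MinF T X D Z) (hT : Ts T D a b c) {x y y' z w : V}
    (hwT : ¬ Tr a b c w) (hwZ : w ∉ Z)
    (hR : Reg T Y D [x, y, y', z, w]) (hYX : Y ⊆ X)
    (n1 : ¬ Ar D x y') (n2 : ¬ Ar D x z) (n3 : ¬ Ar D y z)
    (hyw : Ar D y w → Adj Y y w) (hyw' : Ar D y' w → Adj Y y' w) :
    nin Y D [x, y, y', z, w] ≤ 1 := by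
  have cT := hT.pl.disc.cx
  have irr : ∀ u, ¬ D u u := fun u h => hT.pl.asymm u u h h
  have hnd := hR.bd.nodup
  simp only [List.nodup_cons, List.mem_cons, List.not_mem_nil, or_false, not_or,
    not_false_eq_true, List.nodup_nil, and_true] at hnd
  obtain ⟨⟨m1, m2, m3, m4⟩, ⟨m5, m6, m7⟩, ⟨m8, m9⟩, m10⟩ := hnd
  by_contra hc
  obtain ⟨u, hu, hur, huC⟩ := nin_inn (X := Y) (D := D) (Z := [x, y, y', z, w]) (by omega)
  by_cases hh : Ar D y w
  · have hR' : Reg T Y D (y :: ([y', z] ++ w :: [x])) := reg_rot hR ⟨1, by simp [List.rotate]⟩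
    obtain ⟨A, B, e, s1, s2, r1, r2, hm⟩ := reg_chord cT hR' (by simp) (by simp) (hyw hh)
    -- `B` is a triangle
    have hB : ∀ v, v ∈ verts B → v = w ∨ v = x ∨ v = y := reg_tri hT r2 (fun h => hwT h.1)
    have hA := hM.part4 hT hwT hwZ r1 (s1.trans hYX) n3 (by
      intro h
      rcases adj_cup e (hyw' h) with k | k
      · exact k
      · exfalso
        rcases hB _ (adj_vert r2.disc.cx k).1 with h | h | h
        · exact m9 h
        · exact m2 h.symm
        · exact m5 h.symm)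
    rw [e, verts_union, Finset.mem_union] at hu
    simp only [List.mem_cons, List.not_mem_nil, or_false, not_or] at huC
    obtain ⟨u1, u2, u3, u4, u5⟩ := huC
    rcases hu with hu | hu
    · have := hA u hu hur
      simp only [List.mem_cons, List.not_mem_nil, or_false] at this
      rcases this with h | h | h | h
      · exact u2 h
      · exact u3 h
      · exact u4 h
      · exact u5 h
    · rcases hB u hu with h | h | h
      · exact u5 h
      · exact u1 h
      · exact u2 h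
  · by_cases hh' : Ar D y' w
    · have hR' : Reg T Y D (y' :: ([z] ++ w :: [x, y])) := reg_rot hR ⟨2, by simp [List.rotate]⟩
      obtain ⟨A, B, e, s1, s2, r1, r2, hm⟩ := reg_chord cT hR' (by simp) (by simp) (hyw' hh')
      have hA : ∀ v, v ∈ verts A → v = y' ∨ v = z ∨ v = w := reg_tri hT r1 (fun h => hwT h.2.2)
      have r2' : Reg T B D [x, y, y', w] := reg_rot r2 ⟨1, by simp [List.rotate]⟩
      have hB := hM.part4 hT hwT hwZ r2' (s2.trans hYX) n1 (fun h => absurd h hh)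
      rw [e, verts_union, Finset.mem_union] at hu
      simp only [List.mem_cons, List.not_mem_nil, or_false, not_or] at huC
      obtain ⟨u1, u2, u3, u4, u5⟩ := huC
      rcases hu with hu | hu
      · rcases hA u hu with h | h | h
        · exact u3 h
        · exact u4 h
        · exact u5 h
      · have := hB u hu hur
        simp only [List.mem_cons, List.not_mem_nil, or_false] at this
        rcases this with h | h | h | h
        · exact u1 h
        · exact u2 h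
        · exact u3 h
        · exact u5 h
    · have hch : Chl D [x, y, y', z, w] := chl5 irr
        (bd_ar hT hR (cyc5_iff.2 (Or.inl ⟨rfl, rfl⟩)))
        (bd_ar hT hR (cyc5_iff.2 (Or.inr (Or.inl ⟨rfl, rfl⟩))))
        (bd_ar hT hR (cyc5_iff.2 (Or.inr (Or.inr (Or.inl ⟨rfl, rfl⟩)))))
        (bd_ar hT hR (cyc5_iff.2 (Or.inr (Or.inr (Or.inr (Or.inl ⟨rfl, rfl⟩))))))
        (bd_ar hT hR (cyc5_iff.2 (Or.inr (Or.inr (Or.inr (Or.inr ⟨rfl, rfl⟩))))))
        n1 n2 n3 hh hh'
      exact hc (hM.five hR hYX (w := w) (by simp) hwZ hch rfl)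

omit [DecidableEq V] in
/-- the chords of a rotated chordless cycle -/
theorem chl_rot (hZ : Chl D Z) (h : Z ~r C) : Chl D C :=
  ⟨fun x y k => hZ.arc x y ((cyc_rot h x y).2 k), fun x y hx hy k => by
    rw [← cyc_rot h, ← cyc_rot h]
    exact hZ.ch x y (h.mem_iff.2 hx) (h.mem_iff.2 hy) k⟩

omit [DecidableEq V] in
/-- the distances on a cyclic list of length four or five -/
theorem opp_rot (hn : Z.Nodup) {p q : V} (hp : p ∈ Z) (hq : q ∈ Z) (hne : p ≠ q)
    (h1 : ¬ Cyc Z p q) (h2 : ¬ Cyc Z q p) (hl : Z.length = 4 ∨ Z.length = 5) :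
    (∃ v y, Z ~r [p, v, q, y]) ∨ ∃ v y y', (Z ~r [p, v, q, y, y'] ∨ Z ~r [q, v, p, y, y']) := by
  obtain ⟨m, hm⟩ := rot_head hp
  have hl' : (p :: m).length = Z.length := hm.perm.length_eq.symm
  have hq' : q ∈ p :: m := hm.mem_iff.1 hq
  rw [cyc_rot hm] at h1 h2
  rcases hl with hl | hl
  · rw [hl] at hl'
    obtain ⟨x, y, z, rfl⟩ : ∃ x y z, m = [x, y, z] := by
      match m, hl' with
      | [x, y, z], _ => exact ⟨x, y, z, rfl⟩
    simp only [List.mem_cons, List.not_mem_nil, or_false] at hq'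
    rcases hq' with rfl | rfl | rfl | rfl
    · exact absurd rfl hne
    · exact absurd (cyc4_iff.2 (Or.inl ⟨rfl, rfl⟩)) h1
    · exact Or.inl ⟨_, _, hm⟩
    · exact absurd (cyc4_iff.2 (Or.inr (Or.inr (Or.inr ⟨rfl, rfl⟩)))) h2
  · rw [hl] at hl'
    obtain ⟨x, y, z, u, rfl⟩ : ∃ x y z u, m = [x, y, z, u] := by
      match m, hl' with
      | [x, y, z, u], _ => exact ⟨x, y, z, u, rfl⟩
    simp only [List.mem_cons, List.not_mem_nil, or_false] at hq'
    rcases hq' with rfl | rfl | rfl | rfl | rfl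
    · exact absurd rfl hne
    · exact absurd (cyc5_iff.2 (Or.inl ⟨rfl, rfl⟩)) h1
    · exact Or.inr ⟨_, _, _, Or.inl hm⟩
    · refine Or.inr ⟨u, x, y, Or.inr (hm.trans ⟨3, ?_⟩)⟩
      simp [List.rotate]
    · exact absurd (cyc5_iff.2 (Or.inr (Or.inr (Or.inr (Or.inr ⟨rfl, rfl⟩))))) h2

omit [DecidableEq V] in
/-- pairs at distance two on a chordless 4-cycle -/
theorem chl4_opp {x y z w : V} (hn : [x, y, z, w].Nodup) (h : Chl D [x, y, z, w]) :
    ¬ Ar D x z := by
  simp only [List.nodup_cons, List.mem_cons, List.not_mem_nil, or_false, not_or,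
    not_false_eq_true, List.nodup_nil, and_true] at hn
  obtain ⟨⟨n1, n2, n3⟩, ⟨n4, n5⟩, n6⟩ := hn
  intro k
  rcases h.ch x z (by simp) (by simp) k with k | k
  · rcases cyc4_iff.1 k with ⟨_, e⟩ | ⟨e, _⟩ | ⟨e, _⟩ | ⟨e, _⟩
    · exact n4 e.symm
    · exact n1 e
    · exact n2 e
    · exact n3 e
  · rcases cyc4_iff.1 k with ⟨e, _⟩ | ⟨e, _⟩ | ⟨_, e⟩ | ⟨e, _⟩
    · exact n2 e.symm
    · exact n4 e.symm
    · exact n3 e
    · exact n6 e

omit [DecidableEq V] in
/-- pairs at distance two on a chordless 5-cycle -/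
theorem chl5_opp {x y z w u : V} (hn : [x, y, z, w, u].Nodup) (h : Chl D [x, y, z, w, u]) :
    ¬ Ar D x z := by
  simp only [List.nodup_cons, List.mem_cons, List.not_mem_nil, or_false, not_or,
    not_false_eq_true, List.nodup_nil, and_true] at hn
  obtain ⟨⟨n1, n2, n3, n4⟩, ⟨n5, n6, n7⟩, ⟨n8, n9⟩, n10⟩ := hn
  intro k
  rcases h.ch x z (by simp) (by simp) k with k | k
  · rcases cyc5_iff.1 k with ⟨_, e⟩ | ⟨e, _⟩ | ⟨e, _⟩ | ⟨e, _⟩ | ⟨e, _⟩
    · exact n5 e.symm
    · exact n1 e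
    · exact n2 e
    · exact n3 e
    · exact n4 e
  · rcases cyc5_iff.1 k with ⟨e, _⟩ | ⟨e, _⟩ | ⟨_, e⟩ | ⟨e, _⟩ | ⟨e, _⟩
    · exact n2 e.symm
    · exact n5 e.symm
    · exact n3 e
    · exact n8 e
    · exact n9 e

/-- an inner vertex joined to two opposite vertices of a 4-cycle is the only one -/
theorem MinF.only4 (hM : MinF T X D Z) (hT : Ts T D a b c)
    {v p o r w : V} (hrot : Z ~r [p, o, r, v]) (hw : w ∈ verts X) (hwr : Re D w)
    (hwZ : w ∉ Z) (h1 : Adj X w p) (h2 : Adj X w r) : nin X D Z ≤ 1 := by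
  have cT := hT.pl.disc.cx
  have hwT := hM.reg.inner hT hw hwZ
  have hR' : Reg T X D (p :: ([o] ++ r :: [v])) := reg_rot hM.reg hrot
  have hch : Chl D [p, o, r, v] := chl_rot hM.chl hrot
  have hwZ' : w ∉ p :: ([o] ++ r :: [v]) := fun h => hwZ (hrot.mem_iff.2 h)
  have hnd : [p, o, r, v].Nodup := hrot.nodup_iff.1 hM.reg.bd.nodup
  have hpr : ¬ Ar D p r := chl4_opp hnd hch
  simp only [List.nodup_cons, List.mem_cons, List.not_mem_nil, or_false, not_or,
    not_false_eq_true, List.nodup_nil, and_true] at hnd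
  obtain ⟨⟨m1, m2, m3⟩, ⟨m4, m5⟩, m6⟩ := hnd
  obtain ⟨X1, X2, e, s1, s2, r1, r2, hm⟩ := reg_two cT hR' hwZ' hwr h1.symm h2.symm
  have wo : o ≠ w := fun h => hwZ' (by simp [h])
  have wv : v ≠ w := fun h => hwZ' (by simp [h])
  have ho1 : o ∈ verts X1 := r1.bd.verts r1.disc.cx (by simp)
  have hv2 : v ∈ verts X2 := r2.bd.verts r2.disc.cx (by simp)
  have innX : ∀ {x : V}, Ar D x w → Adj X x w := by
    intro x h
    exact ((hM.reg.adj_iff hT hw hwZ).2 (hT.pl.ar_adj (ar_symm h))).symm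
  have k1 := hM.part4 hT hwT hwZ r1 s1 hpr (by
    intro h
    rcases adj_cup e (innX h) with k | k
    · exact k
    · exfalso
      rcases hm _ ho1 (adj_vert r2.disc.cx k).1 with h | h | h
      · exact m1 h.symm
      · exact m4 h
      · exact wo h)
  have k2 := hM.part4 hT hwT hwZ r2 s2 (fun h => hpr (ar_symm h)) (by
    intro h
    rcases adj_cup e (innX h) with k | k
    · exfalso
      rcases hm _ (adj_vert r1.disc.cx k).1 hv2 with h | h | h
      · exact m3 h.symm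
      · exact m6 h.symm
      · exact wv h
    · exact k)
  by_contra hc
  obtain ⟨u, hu, hur, huZ, huw⟩ := nin_other (X := X) (D := D) (Z := Z) (by omega) w
  have huZ' : u ∉ [p, o, r, v] := fun h => huZ (hrot.mem_iff.2 h)
  simp only [List.mem_cons, List.not_mem_nil, or_false, not_or] at huZ'
  obtain ⟨u1, u2, u3, u4⟩ := huZ'
  rw [e, verts_union, Finset.mem_union] at hu
  rcases hu with hu | hu
  · have h := k1 u hu hur
    simp only [List.mem_cons, List.not_mem_nil, or_false] at h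
    rcases h with h | h | h | h
    · exact u1 h
    · exact u2 h
    · exact u3 h
    · exact huw h
  · have h := k2 u hu hur
    simp only [List.mem_cons, List.not_mem_nil, or_false] at h
    rcases h with h | h | h | h
    · exact u3 h
    · exact u4 h
    · exact u1 h
    · exact huw h

/-- an inner vertex joined to two vertices of a 5-cycle at distance two -/
theorem MinF.only5 (hM : MinF T X D Z) (hT : Ts T D a b c)
    {p o r y y' w : V} (hrot : Z ~r [p, o, r, y, y']) (hw : w ∈ verts X) (hwr : Re D w)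
    (hwZ : w ∉ Z) (h1 : Adj X w p) (h2 : Adj X w r) : nin X D Z ≤ 2 := by
  classical
  have cT := hT.pl.disc.cx
  have hwT := hM.reg.inner hT hw hwZ
  have hR' : Reg T X D (p :: ([o] ++ r :: [y, y'])) := reg_rot hM.reg hrot
  have hch : Chl D [p, o, r, y, y'] := chl_rot hM.chl hrot
  have hwZ' : w ∉ p :: ([o] ++ r :: [y, y']) := fun h => hwZ (hrot.mem_iff.2 h)
  have hnd : [p, o, r, y, y'].Nodup := hrot.nodup_iff.1 hM.reg.bd.nodup
  have hpr : ¬ Ar D p r := chl5_opp hnd hch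
  have hr1 : [p, o, r, y, y'] ~r [r, y, y', p, o] := ⟨2, by simp [List.rotate]⟩
  have hr2 : [p, o, r, y, y'] ~r [y, y', p, o, r] := ⟨3, by simp [List.rotate]⟩
  have hry' : ¬ Ar D r y' := chl5_opp (hr1.nodup_iff.1 hnd) (chl_rot hch hr1)
  have hyp : ¬ Ar D y p := chl5_opp (hr2.nodup_iff.1 hnd) (chl_rot hch hr2)
  simp only [List.nodup_cons, List.mem_cons, List.not_mem_nil, or_false, not_or,
    not_false_eq_true, List.nodup_nil, and_true] at hnd
  obtain ⟨⟨m1, m2, m3, m4⟩, ⟨m5, m6, m7⟩, ⟨m8, m9⟩, m10⟩ := hnd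
  obtain ⟨X1, X2, e, s1, s2, r1, r2, hm⟩ := reg_two cT hR' hwZ' hwr h1.symm h2.symm
  have wo : o ≠ w := fun h => hwZ' (by simp [h])
  have wy : y ≠ w := fun h => hwZ' (by simp [h])
  have wy' : y' ≠ w := fun h => hwZ' (by simp [h])
  have ho1 : o ∈ verts X1 := r1.bd.verts r1.disc.cx (by simp)
  have hy2 : y ∈ verts X2 := r2.bd.verts r2.disc.cx (by simp)
  have hy2' : y' ∈ verts X2 := r2.bd.verts r2.disc.cx (by simp)
  have innX : ∀ {x : V}, Ar D x w → Adj X x w := by
    intro x h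
    exact ((hM.reg.adj_iff hT hw hwZ).2 (hT.pl.ar_adj (ar_symm h))).symm
  have k1 := hM.part4 hT hwT hwZ r1 s1 hpr (by
    intro h
    rcases adj_cup e (innX h) with k | k
    · exact k
    · exfalso
      rcases hm _ ho1 (adj_vert r2.disc.cx k).1 with h | h | h
      · exact m1 h.symm
      · exact m5 h
      · exact wo h)
  have k2 := hM.part5 hT hwT hwZ r2 s2 hry' (fun h => hpr (ar_symm h)) hyp (by
    intro h
    rcases adj_cup e (innX h) with k | k
    · exfalso
      rcases hm _ (adj_vert r1.disc.cx k).1 hy2 with h | h | h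
      · exact m3 h.symm
      · exact m8 h.symm
      · exact wy h
    · exact k) (by
    intro h
    rcases adj_cup e (innX h) with k | k
    · exfalso
      rcases hm _ (adj_vert r1.disc.cx k).1 hy2' with h | h | h
      · exact m4 h.symm
      · exact m9 h.symm
      · exact wy' h
    · exact k)
  -- the inner vertices of `X`
  have hsub : (verts X).filter (fun v => Re D v ∧ v ∉ Z) ⊆
      insert w ((verts X2).filter (fun v => Re D v ∧ v ∉ r :: ([y, y'] ++ [p, w]))) := by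
    intro u hu
    obtain ⟨hu1, hur, huZ⟩ := Finset.mem_filter.1 hu
    rw [Finset.mem_insert]
    by_cases huw : u = w
    · exact Or.inl huw
    right
    have huZ' : u ∉ [p, o, r, y, y'] := fun h => huZ (hrot.mem_iff.2 h)
    simp only [List.mem_cons, List.not_mem_nil, or_false, not_or] at huZ'
    obtain ⟨u1, u2, u3, u4, u5⟩ := huZ'
    rw [e, verts_union, Finset.mem_union] at hu1
    rcases hu1 with hu1 | hu1
    · have h := k1 u hu1 hur
      simp only [List.mem_cons, List.not_mem_nil, or_false] at h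
      rcases h with h | h | h | h
      · exact absurd h u1
      · exact absurd h u2
      · exact absurd h u3
      · exact absurd h huw
    · refine Finset.mem_filter.2 ⟨hu1, hur, ?_⟩
      simp only [List.cons_append, List.nil_append, List.mem_cons, List.not_mem_nil, or_false,
        not_or]
      exact ⟨u3, u4, u5, u1, huw⟩
  have h1 := Finset.card_le_card hsub
  have h2 := Finset.card_insert_le w
    ((verts X2).filter (fun v => Re D v ∧ v ∉ r :: ([y, y'] ++ [p, w])))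
  have h3 : ((verts X2).filter (fun v => Re D v ∧ v ∉ r :: ([y, y'] ++ [p, w]))).card ≤ 1 := by
    have := k2
    unfold nin at this
    exact this
  have h4 : nin X D Z = ((verts X).filter (fun v => Re D v ∧ v ∉ Z)).card := by
    unfold nin
    rfl
  rw [h4]
  omega

/-- the large case: the corner count applies -/
theorem MinF.rg (hM : MinF T X D Z) (hT : Ts T D a b c)
    (h2 : (Z.length = 4 ∧ 2 ≤ nin X D Z) ∨ (Z.length = 5 ∧ 3 ≤ nin X D Z)) :
    Rg T X D Z := by
  have cT := hT.pl.disc.cx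
  have cX := hM.reg.disc.cx
  have hnd := hM.reg.bd.nodup
  have hlen : Z.length = 4 ∨ Z.length = 5 := h2.imp And.left And.left
  -- an inner vertex is not joined to two non consecutive vertices
  have key : ∀ {w p q : V}, w ∈ verts X → Re D w → w ∉ Z → p ∈ Z → q ∈ Z → p ≠ q →
      ¬ Cyc Z p q → ¬ Cyc Z q p → Adj X w p → Adj X w q → False := by
    intro w p q hw hwr hwZ hp hq hne c1 c2 a1 a2
    rcases opp_rot hnd hp hq hne c1 c2 hlen with ⟨v, y, hrot⟩ | ⟨v, y, y', hrot | hrot⟩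
    · have h3 := hM.only4 hT hrot hw hwr hwZ a1 a2
      have h4 : Z.length = 4 := hrot.perm.length_eq
      omega
    · have h3 := hM.only5 hT hrot hw hwr hwZ a1 a2
      have h4 : Z.length = 5 := hrot.perm.length_eq
      omega
    · have h3 := hM.only5 hT hrot hw hwr hwZ a2 a1
      have h4 : Z.length = 5 := hrot.perm.length_eq
      omega
  refine ⟨hM.reg, hM.chl, by omega, ?_, nin_inn (by omega), ?_⟩
  · intro w hw hwr hwZ p q o h1 h2' h3 h4 h5 h6 h7
    by_contra hcon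
    rw [not_or] at hcon
    obtain ⟨c1, c2⟩ := hcon
    have hwp := (hM.reg.adj_iff hT hw hwZ).2 (hT.pl.ar_adj h1)
    have hwq := (hM.reg.adj_iff hT hw hwZ).2 (hT.pl.ar_adj h2')
    have hp := (adj_vert cX hwp).2.1
    have hq := (adj_vert cX hwq).2.1
    by_cases ho : o ∈ verts X
    · have e1 := reg_edge hT hM.reg hM.chl hp ho h6
      have e2 := reg_edge hT hM.reg hM.chl hq ho h7
      rcases cut4_q hT hM.reg hwp e1 e2.symm hwq.symm h5.symm h3 hwr (ar_re h1).2 (ar_re h6).2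
        (ar_re h2').2 c1 h4 with ⟨Y, p', q', _, k1, k2⟩ | h
      · have m1 := hM.min Y [w, p', o, q'] ⟨k1.reg, k1.chl, Or.inl ⟨rfl, nin_pos k1.inn⟩⟩
        have m2 : nin Y D [w, p', o, q'] < nin X D Z :=
          nin_lt (fun v hv _ hvC => k2 v hv hvC) hw hwr hwZ (fun _ => by simp)
        omega
      · exact c2 h
    · have onZ : ∀ {x : V}, x ∈ verts X → Ar D x o → x ∈ Z := by
        intro x hx hxo
        by_contra hxZ
        exact ho (adj_vert cX ((hM.reg.adj_iff hT hx hxZ).2 (hT.pl.ar_adj hxo))).2.1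
      exact key hw hwr hwZ (onZ hp h6) (onZ hq h7) h3 (fun h => h4 (hM.chl.arc _ _ h))
        (fun h => h4 (ar_symm (hM.chl.arc _ _ h))) hwp hwq
  · intro v p r hp hr w hw hwZ hwr h1 h3
    obtain ⟨o1, o2⟩ := hM.chl.opp hT hnd (by omega) hp hr
    exact key hw hwr hwZ (cyc_mem hp).2 (cyc_mem hr).1 o1 (fun h => o2 (hM.chl.arc _ _ h))
      (fun h => o2 (ar_symm (hM.chl.arc _ _ h))) h1 h3

/-- the context of the discharging -/
structure Ctx (T X : Finset (V × V × V)) (D : V → V → Prop) (a b c : V) (Z : List V) : Prop where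
  reg : Reg T X D Z
  good : ∀ u, u ∈ verts X → Re D u → u ∉ Z → H72.G4.Good T D u
  four : ∀ Y C, Y ⊆ X → Reg T Y D C → Chl D C → C.length = 4 → (∃ w, w ∈ C ∧ w ∉ Z) →
    nin Y D C = 0
  five : ∀ Y C, Y ⊆ X → Reg T Y D C → Chl D C → C.length = 5 → (∃ w, w ∈ C ∧ w ∉ Z) →
    nin Y D C ≤ 1
  bnd : (X = T ∧ Z = [a, b, c]) ∨ (Rg T X D Z ∧ (Z.length = 4 ∨ Z.length = 5))

/-- **4- and 5-cycles, geometric part.** -/
theorem ctx_cases [Infinite V] (hF : FanT V) (hM : MCw T D a b c) (hT : Ts T D a b c) :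
    (∃ X Z, Ctx T X D a b c Z) ∨
      (∃ v z1 z2 z3 z4, Star4 T D a b c v z1 z2 z3 z4) ∨
      (∃ X Z w1 w2, Reg T X D Z ∧ Chl D Z ∧ Z.length = 5 ∧ w1 ≠ w2 ∧
        (w1 ∈ verts X ∧ Re D w1 ∧ w1 ∉ Z) ∧ (w2 ∈ verts X ∧ Re D w2 ∧ w2 ∉ Z) ∧
        ∀ u, u ∈ verts X → Re D u → u ∉ Z → u = w1 ∨ u = w2) := by
  classical
  by_cases hf : ∃ X Z, Fam T X D Z
  · obtain ⟨X, Z, hX⟩ := exists_minF hf
    by_cases hbig : (Z.length = 4 ∧ 2 ≤ nin X D Z) ∨ (Z.length = 5 ∧ 3 ≤ nin X D Z)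
    · left
      have hrg := hX.rg hT hbig
      refine ⟨X, Z, hX.reg, hrg.good, ?_, ?_, Or.inr ⟨hrg, hbig.imp And.left And.left⟩⟩
      · rintro Y C h1 h2 h3 h4 ⟨w, hw, hwZ⟩
        exact hX.four h2 h1 hw hwZ h3 h4
      · rintro Y C h1 h2 h3 h4 ⟨w, hw, hwZ⟩
        exact hX.five h2 h1 hw hwZ h3 h4
    · right
      rcases hX.sz with ⟨h4, h1⟩ | ⟨h5, h2⟩
      · left
        obtain ⟨z1, z2, z3, z4, rfl⟩ : ∃ z1 z2 z3 z4, Z = [z1, z2, z3, z4] := by
          match Z, h4 with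
          | [x, y, z, u], _ => exact ⟨x, y, z, u, rfl⟩
        have hM4 : Min4 T X D z1 z2 z3 z4 :=
          ⟨⟨hX.reg, hX.chl, nin_inn h1⟩, fun X' y1 y2 y3 y4 hY =>
            hX.min X' _ ⟨hY.reg, hY.chl, Or.inl ⟨rfl, nin_pos hY.inn⟩⟩⟩
        obtain ⟨w, hw, hwr, hwZ⟩ := nin_inn h1
        refine ⟨w, z1, z2, z3, z4, hM4.star hF hM hT hw hwr hwZ ?_⟩
        intro u hu hur huZ
        by_contra hne
        exact hbig (Or.inl ⟨rfl, nin_two' hne ⟨hu, hur, huZ⟩ ⟨hw, hwr, hwZ⟩⟩)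
      · right
        obtain ⟨u, w, hne, hu, hw⟩ := nin_two h2
        refine ⟨X, Z, u, w, hX.reg, hX.chl, h5, hne, hu, hw, ?_⟩
        intro t ht htr htZ
        by_contra hcon
        rw [not_or] at hcon
        apply hbig
        refine Or.inr ⟨h5, ?_⟩
        unfold nin
        have h3 : ({t, u, w} : Finset V).card = 3 := by
          rw [Finset.card_insert_of_notMem, Finset.card_insert_of_notMem, Finset.card_singleton]
          · simpa using hne
          · simp only [Finset.mem_insert, Finset.mem_singleton, not_or]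
            exact hcon
        rw [← h3]
        apply Finset.card_le_card
        intro s hs
        simp only [Finset.mem_insert, Finset.mem_singleton] at hs
        rcases hs with rfl | rfl | rfl
        · exact Finset.mem_filter.2 ⟨ht, htr, htZ⟩
        · exact Finset.mem_filter.2 ⟨hu.1, hu.2⟩
        · exact Finset.mem_filter.2 ⟨hw.1, hw.2⟩
  · left
    refine ⟨T, [a, b, c], reg_self hT, ?_, ?_, ?_, Or.inl ⟨rfl, rfl⟩⟩
    · intro u _ _ _
      by_contra hg
      obtain ⟨X, z1, z2, z3, z4, hX⟩ := exists_q4 hT hg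
      exact hf ⟨X, _, hX.reg, hX.chl, Or.inl ⟨rfl, nin_pos hX.inn⟩⟩
    · intro Y C _ h2 h3 h4 _
      by_contra hc
      exact hf ⟨Y, C, h2, h3, Or.inl ⟨h4, by omega⟩⟩
    · intro Y C _ h2 h3 h5 _
      by_contra hc
      exact hf ⟨Y, C, h2, h3, Or.inr ⟨h5, by omega⟩⟩

/-- a real 5-cycle inside a region bounds a region, in one of the two orientations -/
theorem cut5 (hT : Ts T D a b c) (hR : Reg T X D Z) {w o x y q : V} (h1 : Adj X w o)
    (h2 : Adj X o x) (h3 : Adj X x y) (h4 : Adj X y q) (h5 : Adj X q w) (n1 : w ≠ x) (n2 : w ≠ y)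
    (n3 : o ≠ y) (n4 : o ≠ q) (n5 : x ≠ q)
    (rw' : Re D w) (ro : Re D o) (rx : Re D x) (ry : Re D y) (rq : Re D q) :
    ∃ Y, Y ⊆ X ∧ (Reg T Y D [w, o, x, y, q] ∨ Reg T Y D [w, q, y, x, o]) ∧
      ∀ v, v ∈ verts Y → v ∉ [w, o, x, y, q] → v ∈ verts X ∧ v ∉ Z := by
  have cT := hT.pl.disc.cx
  have cX := hR.disc.cx
  have k1 := adj_ne cX h1
  have k2 := adj_ne cX h2
  have k3 := adj_ne cX h3
  have k4 := adj_ne cX h4
  have k5 := adj_ne cX h5
  have hnd : [w, o, x, y, q].Nodup := by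
    simp only [List.nodup_cons, List.mem_cons, List.not_mem_nil, or_false, not_or,
      not_false_eq_true, List.nodup_nil, and_true]
    exact ⟨⟨k1, n1, n2, k5.symm⟩, ⟨k2, n3, n4⟩, ⟨k3, n5⟩, k4⟩
  obtain ⟨Y, e1, e2, e3⟩ := reg_cut cT hR hnd (by simp) (by
    intro p r h
    rcases cyc5_iff.1 h with ⟨rfl, rfl⟩ | ⟨rfl, rfl⟩ | ⟨rfl, rfl⟩ | ⟨rfl, rfl⟩ | ⟨rfl, rfl⟩
    · exact h1
    · exact h2
    · exact h3
    · exact h4
    · exact h5) (by
    intro v hv
    simp only [List.mem_cons, List.not_mem_nil, or_false] at hv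
    rcases hv with rfl | rfl | rfl | rfl | rfl
    · exact rw'
    · exact ro
    · exact rx
    · exact ry
    · exact rq)
  refine ⟨Y, e1, ?_, e3⟩
  rcases e2 with e2 | e2
  · exact Or.inl e2
  · exact Or.inr (reg_rot e2 ⟨4, by simp [List.rotate]⟩)

end Pool.Agent.H96.G4
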