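import Pool.Agent.H35.G4.DisE

/-!
# The double count of the discharging
-/

set_option autoImplicit false

namespace Pool.Agent.H96.G4

open Relation Pool.Agent.H13.DA Pool.Agent.H72.G4 Pool.Agent.H13.G4 Pool.Agent.H35.G4
open CT

variable {V : Type*} [DecidableEq V] {T X : Finset (V × V × V)} {D : V → V → Prop} {Z : List V}

open Classical in
/-- counting the pairs of a relation in two ways: every element of `A` has a partner in `B` -/
theorem card_le_sum_fib {α β : Type*} [DecidableEq α] (A : Finset α) (B : Finset β)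
    (r : α → β → Prop) (h : ∀ a, a ∈ A → ∃ b, b ∈ B ∧ r a b) :
    A.card ≤ ∑ b ∈ B, (A.filter (fun a => r a b)).card := by
  have : A ⊆ B.biUnion (fun b => A.filter (fun a => r a b)) := by
    intro a ha
    obtain ⟨b, hb, hr⟩ := h a ha
    exact Finset.mem_biUnion.2 ⟨b, hb, Finset.mem_filter.2 ⟨ha, hr⟩⟩
  exact (Finset.card_le_card this).trans Finset.card_biUnion_le

open Classical in
/-- **The double count.** -/
theorem dc
    (h1 : ∀ p, p ∈ akp T X D Z → ∃ b, (In X D Z b ∨ b ∈ Z) ∧ Ask T D Z p.1 p.2 b)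
    (h2 : ∀ v, v ∈ inn X D Z → 24 + 2 * kb T X D Z v + 3 * tb T X D Z v ≤
      6 * (sv T D v + qv T D v) + (if IsW T D v [s2, m, s1, q] then 6 else 0) +
        (if IsW T D v [q, m, q, m, q, m] then 6 else 0) +
        (if IsW T D v [m, q, m, q, q, q] then 2 else 0))
    (h3 : ∀ v, v ∈ inn X D Z → IsW T D v [q, m, q, m, q, m] →
      3 ≤ ((akp T X D Z).filter (fun p => p.1 = v)).card)
    (h3' : ∀ v, v ∈ inn X D Z → IsW T D v [m, q, m, q, q, q] →
      1 ≤ ((akp T X D Z).filter (fun p => p.1 = v)).card)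
    (h4 : ∀ v, v ∈ inn X D Z → IsW T D v [s2, m, s1, q] → ∃ b b', b ≠ b' ∧
      (In X D Z b ∨ b ∈ Z) ∧ (In X D Z b' ∨ b' ∈ Z) ∧ Req T D v b b' ∧ Req T D v b' b)
    (h5 : ∀ v, v ∈ inn X D Z → IsW T D v [q, m, q, m, q, m] →
      IsW T D v [m, q, m, q, q, q] → False) :
    6 * ∑ v ∈ inn X D Z, ((4 : ℤ) - sv T D v - qv T D v) ≤
      ((∑ b ∈ Z.toFinset, (2 * kb T X D Z b + 3 * tb T X D Z b) : ℕ) : ℤ) := by
  set I := inn X D Z with hI
  set J := Z.toFinset with hJ
  have memI : ∀ v, v ∈ I ↔ In X D Z v := fun v => mem_inn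
  have memJ : ∀ v, v ∈ J ↔ v ∈ Z := fun v => List.mem_toFinset
  have hdis : Disjoint I J := by
    rw [Finset.disjoint_left]
    intro v hv hv'
    exact ((memI v).1 hv).2.2 ((memJ v).1 hv')
  have mem2 : ∀ b, (In X D Z b ∨ b ∈ Z) → b ∈ I ∪ J := by
    rintro b (h | h)
    · exact Finset.mem_union_left _ ((memI b).2 h)
    · exact Finset.mem_union_right _ ((memJ b).2 h)
  -- the asks
  have a1 : (akp T X D Z).card ≤ ∑ b ∈ I ∪ J, kb T X D Z b := by
    have := card_le_sum_fib (akp T X D Z) (I ∪ J) (fun p b => Ask T D Z p.1 p.2 b)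
      (fun p hp => by
        obtain ⟨b, hb, hr⟩ := h1 p hp
        exact ⟨b, mem2 b hb, hr⟩)
    exact this
  have a2 : (akp T X D Z).card = ∑ v ∈ I, ((akp T X D Z).filter (fun p => p.1 = v)).card := by
    rw [Finset.card_eq_sum_card_fiberwise (f := Prod.fst) (t := I)]
    intro p hp
    have hp' := (Finset.mem_filter.1 (Finset.mem_coe.1 hp)).1
    exact Finset.mem_coe.2 (Finset.mem_product.1 hp').1
  have a3 : ∑ v ∈ I, ((if IsW T D v [q, m, q, m, q, m] then 6 else 0) +
        (if IsW T D v [m, q, m, q, q, q] then 2 else 0)) ≤ 2 * (akp T X D Z).card := by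
    rw [a2, Finset.mul_sum]
    refine Finset.sum_le_sum fun v hv => ?_
    by_cases k1 : IsW T D v [q, m, q, m, q, m]
    · have k2 : ¬ IsW T D v [m, q, m, q, q, q] := fun k2 => h5 v hv k1 k2
      have := h3 v hv k1
      rw [if_pos k1, if_neg k2]
      omega
    · by_cases k2 : IsW T D v [m, q, m, q, q, q]
      · have := h3' v hv k2
        rw [if_neg k1, if_pos k2]
        omega
      · rw [if_neg k1, if_neg k2]
        omega
  -- the requests
  have b1 : ∑ v ∈ I, (if IsW T D v [s2, m, s1, q] then 6 else 0) ≤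
      3 * ∑ b ∈ I ∪ J, tb T X D Z b := by
    have e1 : ∑ b ∈ I ∪ J, tb T X D Z b =
        ∑ v ∈ I, ((I ∪ J).filter (fun b => ∃ e, Req T D v b e)).card := by
      have e2 : ∀ b, tb T X D Z b = ∑ v ∈ I, if (∃ e, Req T D v b e) then 1 else 0 := by
        intro b
        unfold tb
        rw [Finset.card_filter]
      simp only [e2, Finset.card_filter]
      rw [Finset.sum_comm]
    rw [e1, Finset.mul_sum]
    refine Finset.sum_le_sum fun v hv => ?_
    by_cases k1 : IsW T D v [s2, m, s1, q]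
    · rw [if_pos k1]
      obtain ⟨b, b', hne, hb, hb', r1, r2⟩ := h4 v hv k1
      have : ({b, b'} : Finset V) ⊆ (I ∪ J).filter (fun b => ∃ e, Req T D v b e) := by
        intro y hy
        rcases Finset.mem_insert.1 hy with rfl | hy
        · exact Finset.mem_filter.2 ⟨mem2 _ hb, _, r1⟩
        · rw [Finset.mem_singleton.1 hy]
          exact Finset.mem_filter.2 ⟨mem2 _ hb', _, r2⟩
      have := Finset.card_le_card this
      rw [Finset.card_pair hne] at this
      omega
    · rw [if_neg k1]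
      omega
  -- everything together
  rw [Finset.sum_union hdis] at a1 b1
  have c1 : ∑ v ∈ I, (24 + 2 * kb T X D Z v + 3 * tb T X D Z v) ≤
      ∑ v ∈ I, (6 * (sv T D v + qv T D v) + (if IsW T D v [s2, m, s1, q] then 6 else 0) +
        ((if IsW T D v [q, m, q, m, q, m] then 6 else 0) +
        (if IsW T D v [m, q, m, q, q, q] then 2 else 0))) := by
    refine Finset.sum_le_sum fun v hv => ?_
    simpa only [add_assoc] using h2 v hv
  simp only [Finset.sum_add_distrib, ← Finset.mul_sum, Finset.sum_const, smul_eq_mul] at c1 a3 ⊢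
  have c2 : ∑ v ∈ I, ((4 : ℤ) - sv T D v - qv T D v) =
      4 * (I.card : ℤ) - ((∑ v ∈ I, sv T D v : ℕ) : ℤ) - ((∑ v ∈ I, qv T D v : ℕ) : ℤ) := by
    rw [Finset.sum_sub_distrib, Finset.sum_sub_distrib, Finset.sum_const, nsmul_eq_mul]
    push_cast
    ring
  rw [c2]
  omega

end Pool.Agent.H96.G4
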