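import Pool.Agent.H13.G4.Bde

/-!
# Cutting regions

Regions (`Reg` of helper13) inside a region:
* `reg_sub` : a subdisc of a region is a region, its inner vertices are inner in the big one.
* `reg_cut` : a cycle in a region bounds a region (`jordan`).
* `reg_chord`, `reg_two` : splitting along a chord, along a path of length two.
* `reg_tri` : the region of a real 3-cycle is one face.
* `reg_quad` : the region of a chordless 4-cycle without inner real vertices is a directed quad.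
* `reg_edge` : arcs between vertices of the region of a chordless cycle are in the region.
-/

set_option autoImplicit false

namespace Pool.Agent.H96.G4

open Relation Pool.Agent.H13.DA Pool.Agent.H72.G4 Pool.Agent.H13.G4

variable {V : Type*} [DecidableEq V] {T X Y : Finset (V × V × V)} {D : V → V → Prop} {a b c : V}
  {Z C : List V}

/-- number of real vertices off the boundary -/
noncomputable def nin (X : Finset (V × V × V)) (D : V → V → Prop) (Z : List V) : ℕ := by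
  classical
  exact ((verts X).filter (fun v => Re D v ∧ v ∉ Z)).card

theorem reg_sub (_cT : IsCx T) (hR : Reg T X D Z) (hY : Y ⊆ X) (dY : Disc Y) (bY : IsBd Y C)
    (sY : ∀ v, v ∈ verts Y → v ∈ verts (X \ Y) → v ∈ C) (rC : ∀ v, v ∈ C → Re D v) :
    Reg T Y D C ∧ ∀ v, v ∈ verts Y → v ∉ C → v ∈ verts X ∧ v ∉ Z := by
  have h2 : ∀ v, v ∈ verts Y → v ∉ C → v ∈ verts X ∧ v ∉ Z := by
    intro v hv hvC
    exact ⟨verts_mono hY hv, inner_off hR.disc.cx dY.cx hY bY hR.bd sY hv hvC⟩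
  refine ⟨⟨hY.trans hR.sub, dY, bY, ?_, rC⟩, h2⟩
  intro v hv hv'
  by_contra hvC
  obtain ⟨h3, h4⟩ := h2 v hv hvC
  obtain ⟨x, y, hxy⟩ := mem_verts.1 hv'
  obtain ⟨h5, h6⟩ := Finset.mem_sdiff.1 hxy
  by_cases hX : (v, x, y) ∈ X
  · exact hvC (sY v hv (vert1 (Finset.mem_sdiff.2 ⟨hX, h6⟩)))
  · exact h4 (hR.sep v h3 (vert1 (Finset.mem_sdiff.2 ⟨h5, hX⟩)))

theorem reg_rot (hR : Reg T X D Z) (h : Z ~r C) : Reg T X D C :=
  ⟨hR.sub, hR.disc, hR.bd.rot h, fun v h1 h2 => h.mem_iff.1 (hR.sep v h1 h2),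
    fun v hv => hR.re v (h.mem_iff.2 hv)⟩

theorem reg_cut (cT : IsCx T) (hR : Reg T X D Z) (hn : C.Nodup) (h3 : 3 ≤ C.length)
    (hC : ∀ x y, Cyc C x y → Adj X x y) (rC : ∀ v, v ∈ C → Re D v) :
    ∃ Y, Y ⊆ X ∧ (Reg T Y D C ∨ Reg T Y D C.reverse) ∧
      ∀ v, v ∈ verts Y → v ∉ C → v ∈ verts X ∧ v ∉ Z := by
  obtain ⟨Y, h1, h2, h4, h5⟩ := jordan hR.disc hn h3 hC
  rcases h4 with h4 | h4
  · obtain ⟨k1, k2⟩ := reg_sub cT hR h1 h2 h4 h5 rC
    exact ⟨Y, h1, Or.inl k1, k2⟩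
  · obtain ⟨k1, k2⟩ := reg_sub cT hR h1 h2 h4 (fun v a b => List.mem_reverse.2 (h5 v a b))
      (fun v hv => rC v (List.mem_reverse.1 hv))
    exact ⟨Y, h1, Or.inr k1, fun v hv hvC => k2 v hv (fun h => hvC (List.mem_reverse.1 h))⟩

theorem sdiff_of_union {A B : Finset (V × V × V)} (h : T = A ∪ B) (hd : Disjoint A B) :
    T \ A = B := by
  rw [h]
  exact Finset.union_sdiff_cancel_left hd

theorem reg_chord (cT : IsCx T) {x y : V} {A B : List V} (hR : Reg T X D (x :: (A ++ y :: B)))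
    (hA : A ≠ []) (hB : B ≠ []) (h : Adj X x y) :
    ∃ X1 X2, X = X1 ∪ X2 ∧ X1 ⊆ X ∧ X2 ⊆ X ∧ Reg T X1 D (x :: (A ++ [y])) ∧
      Reg T X2 D (y :: (B ++ [x])) ∧ (∀ v, v ∈ verts X1 → v ∈ verts X2 → v = x ∨ v = y) := by
  obtain ⟨X1, X2, e, hd, d1, d2, b1, b2, hv⟩ := chord_split hR.disc hR.bd hA hB h
  have s1 : X1 ⊆ X := by rw [e]; exact Finset.subset_union_left
  have s2 : X2 ⊆ X := by rw [e]; exact Finset.subset_union_right
  have e1 := sdiff_of_union e hd
  have e2 : X \ X2 = X1 := sdiff_of_union (e.trans (Finset.union_comm _ _)) hd.symm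
  have hm : ∀ v, v ∈ verts X1 → v ∈ verts X2 → v = x ∨ v = y := by
    intro v h1 h2
    have : v ∈ verts X1 ∩ verts X2 := Finset.mem_inter.2 ⟨h1, h2⟩
    rw [hv] at this
    simpa using this
  refine ⟨X1, X2, e, s1, s2, (reg_sub cT hR s1 d1 b1 ?_ ?_).1, (reg_sub cT hR s2 d2 b2 ?_ ?_).1, hm⟩
  · rw [e1]
    intro v h1 h2
    rcases hm v h1 h2 with rfl | rfl <;> simp
  · intro v hv
    apply hR.re v
    simp only [List.mem_cons, List.mem_append, List.not_mem_nil, or_false] at hv ⊢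
    rcases hv with h | h | h
    · exact Or.inl h
    · exact Or.inr (Or.inl h)
    · exact Or.inr (Or.inr (Or.inl h))
  · rw [e2]
    intro v h1 h2
    rcases hm v h2 h1 with rfl | rfl <;> simp
  · intro v hv
    apply hR.re v
    simp only [List.mem_cons, List.mem_append, List.not_mem_nil, or_false] at hv ⊢
    rcases hv with h | h | h
    · exact Or.inr (Or.inr (Or.inl h))
    · exact Or.inr (Or.inr (Or.inr h))
    · exact Or.inl h

theorem reg_two (cT : IsCx T) {x y w : V} {A B : List V} (hR : Reg T X D (x :: (A ++ y :: B)))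
    (hw : w ∉ x :: (A ++ y :: B)) (hwr : Re D w) (hx : Adj X x w) (hy : Adj X y w) :
    ∃ X1 X2, X = X1 ∪ X2 ∧ X1 ⊆ X ∧ X2 ⊆ X ∧ Reg T X1 D (x :: (A ++ [y, w])) ∧
      Reg T X2 D (y :: (B ++ [x, w])) ∧
      (∀ v, v ∈ verts X1 → v ∈ verts X2 → v = x ∨ v = y ∨ v = w) := by
  obtain ⟨X1, X2, e, hd, d1, d2, b1, b2, hv⟩ := two_chord_split hR.disc hR.bd hw hx hy
  have s1 : X1 ⊆ X := by rw [e]; exact Finset.subset_union_left
  have s2 : X2 ⊆ X := by rw [e]; exact Finset.subset_union_right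
  have e1 := sdiff_of_union e hd
  have e2 : X \ X2 = X1 := sdiff_of_union (e.trans (Finset.union_comm _ _)) hd.symm
  have hm : ∀ v, v ∈ verts X1 → v ∈ verts X2 → v = x ∨ v = y ∨ v = w := by
    intro v h1 h2
    have : v ∈ verts X1 ∩ verts X2 := Finset.mem_inter.2 ⟨h1, h2⟩
    rw [hv] at this
    simpa using this
  refine ⟨X1, X2, e, s1, s2, (reg_sub cT hR s1 d1 b1 ?_ ?_).1, (reg_sub cT hR s2 d2 b2 ?_ ?_).1, hm⟩
  · rw [e1]
    intro v h1 h2
    rcases hm v h1 h2 with rfl | rfl | rfl <;> simp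
  · intro v hv
    by_cases hvw : v = w
    · exact hvw ▸ hwr
    apply hR.re v
    simp only [List.mem_cons, List.mem_append, List.not_mem_nil, or_false] at hv ⊢
    rcases hv with h | h | h | h
    · exact Or.inl h
    · exact Or.inr (Or.inl h)
    · exact Or.inr (Or.inr (Or.inl h))
    · exact absurd h hvw
  · rw [e2]
    intro v h1 h2
    rcases hm v h2 h1 with rfl | rfl | rfl <;> simp
  · intro v hv
    by_cases hvw : v = w
    · exact hvw ▸ hwr
    apply hR.re v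
    simp only [List.mem_cons, List.mem_append, List.not_mem_nil, or_false] at hv ⊢
    rcases hv with h | h | h | h
    · exact Or.inr (Or.inr (Or.inl h))
    · exact Or.inr (Or.inr (Or.inr h))
    · exact Or.inl h
    · exact absurd h hvw

omit [DecidableEq V] in
theorem cyc3_iff {x y z p q : V} : Cyc [x, y, z] p q ↔
    (p = x ∧ q = y) ∨ (p = y ∧ q = z) ∨ (p = z ∧ q = x) := by
  simp [Cyc, Nx]

omit [DecidableEq V] in
theorem cyc4_iff {x y z w p q : V} : Cyc [x, y, z, w] p q ↔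
    (p = x ∧ q = y) ∨ (p = y ∧ q = z) ∨ (p = z ∧ q = w) ∨ (p = w ∧ q = x) := by
  simp [Cyc, Nx]

omit [DecidableEq V] in
theorem cyc5_iff {x y z w u p q : V} : Cyc [x, y, z, w, u] p q ↔
    (p = x ∧ q = y) ∨ (p = y ∧ q = z) ∨ (p = z ∧ q = w) ∨ (p = w ∧ q = u) ∨ (p = u ∧ q = x) := by
  simp [Cyc, Nx]

/-- a disc with boundary `x y z` next to a face on `x y z` is that face -/
theorem disc_tri (dT : Disc T) {l : List V} (_bT : IsBd T l) {A : Finset (V × V × V)} (hA : A ⊆ T)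
    (dA : Disc A) {x y z : V} (bA : IsBd A [x, y, z]) (hf : Face T x y z) :
    ∀ v, v ∈ verts A → v = x ∨ v = y ∨ v = z := by
  classical
  have cT := dT.cx
  have cA := dA.cx
  have b1 := bd_cyc bA (cyc3_iff.2 (Or.inl ⟨rfl, rfl⟩))
  have b2 := bd_cyc bA (cyc3_iff.2 (Or.inr (Or.inl ⟨rfl, rfl⟩)))
  have b3 := bd_cyc bA (cyc3_iff.2 (Or.inr (Or.inr ⟨rfl, rfl⟩)))
  rcases hf with h | h
  · have hm : (x, y, z) ∈ A := by
      obtain ⟨e, he⟩ := b1.1
      rwa [cT.uniq (hA he) h] at he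
    have e : tri x y z = A := by
      refine sub_eq_bd cA dA.conn (tri_sub cA hm) (tri_isCx cA hm) ?_ ⟨_, mem_tri.2 (Or.inl rfl)⟩
      intro p q h1 h2
      rcases dir_tri.1 h1 with ⟨rfl, rfl⟩ | ⟨rfl, rfl⟩ | ⟨rfl, rfl⟩
      · exact absurd h2 b1.2
      · exact absurd h2 b2.2
      · exact absurd h2 b3.2
    intro v hv
    rw [← e, verts_tri] at hv
    simpa using hv
  · exfalso
    have cU : IsCx (A ∪ tri x z y) := cx_union cT hA (tri_sub cT h) cA (tri_isCx cT h)
    have hU : A ∪ tri x z y ⊆ T := Finset.union_subset hA (tri_sub cT h)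
    have clo : ∀ p q, Dir (A ∪ tri x z y) p q → Dir (A ∪ tri x z y) q p := by
      intro p q h1
      rw [dir_union] at h1 ⊢
      rcases h1 with h1 | h1
      · by_cases h2 : Dir A q p
        · exact Or.inl h2
        · right
          rcases cyc3_iff.1 ((bA.iff p q).1 (bd_dir.2 ⟨h1, h2⟩)) with ⟨rfl, rfl⟩ | ⟨rfl, rfl⟩ |
            ⟨rfl, rfl⟩
          · exact dir_tri.2 (Or.inr (Or.inr ⟨rfl, rfl⟩))
          · exact dir_tri.2 (Or.inr (Or.inl ⟨rfl, rfl⟩))
          · exact dir_tri.2 (Or.inl ⟨rfl, rfl⟩)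
      · left
        rcases dir_tri.1 h1 with ⟨rfl, rfl⟩ | ⟨rfl, rfl⟩ | ⟨rfl, rfl⟩
        · exact b3.1
        · exact b2.1
        · exact b1.1
    have e : A ∪ tri x z y = T := by
      refine sub_eq_bd cT dT.conn hU cU (fun p q h1 _ => clo p q h1)
        ⟨_, Finset.mem_union_right _ (mem_tri.2 (Or.inl rfl))⟩
    obtain ⟨u, v, huv⟩ := dT.bd
    obtain ⟨h1, h2⟩ := bd_dir.1 huv
    rw [← e] at h1 h2
    exact h2 (clo u v h1)

/-- the region of a real 3-cycle is a face -/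
theorem reg_tri (hT : Ts T D a b c) {A : Finset (V × V × V)} {x y z : V}
    (hR : Reg T A D [x, y, z]) (hn : ¬ (Tr a b c x ∧ Tr a b c y ∧ Tr a b c z)) :
    ∀ v, v ∈ verts A → v = x ∨ v = y ∨ v = z := by
  have b1 := bd_cyc hR.bd (cyc3_iff.2 (Or.inl ⟨rfl, rfl⟩))
  have b2 := bd_cyc hR.bd (cyc3_iff.2 (Or.inr (Or.inl ⟨rfl, rfl⟩)))
  have b3 := bd_cyc hR.bd (cyc3_iff.2 (Or.inr (Or.inr ⟨rfl, rfl⟩)))
  have m : ∀ {p q : V}, Dir A p q → Adj T p q := by
    rintro p q ⟨r, hr⟩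
    exact Or.inl ⟨r, hR.sub hr⟩
  rcases hT.fc x y z (m b1.1) (m b2.1) (m b3.1) with h | h
  · exact disc_tri hT.pl.disc hT.pl.bd hR.sub hR.disc hR.bd h
  · exact absurd h hn

/-- arcs inside the region of a chordless cycle -/
theorem reg_edge (hT : Ts T D a b c) (hR : Reg T X D Z) (hZ : Chl D Z) {p o : V}
    (hp : p ∈ verts X) (ho : o ∈ verts X) (h : Ar D p o) : Adj X p o := by
  have cT := hT.pl.disc.cx
  have hadj := hT.pl.ar_adj h
  have inn : ∀ {u w : V}, u ∈ verts X → u ∉ Z → Adj T u w → Adj X u w := by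
    intro u w hu huZ huw
    rcases huw with ⟨e, he⟩ | ⟨e, he⟩
    · exact Or.inl ⟨e, hR.tri_in hu huZ he⟩
    · have := hR.tri_in hu huZ (cT.rot he)
      exact Or.inr ⟨e, (rot3 hR.disc.cx this).2⟩
  by_cases hpZ : p ∈ Z
  · by_cases hoZ : o ∈ Z
    · rcases hZ.ch p o hpZ hoZ h with k | k
      · exact Or.inl (bd_cyc hR.bd k).1
      · exact Or.inr (bd_cyc hR.bd k).1
    · exact (inn ho hoZ hadj.symm).symm
  · exact inn hp hpZ hadj

/-- the region of a chordless 4-cycle without inner real vertices has a dummy joined to the four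
vertices -/
theorem reg_quad (hT : Ts T D a b c) {w p o q : V} (hR : Reg T Y D [w, p, o, q])
    (n1 : ¬ Ar D w o) (n2 : ¬ Ar D p q)
    (hno : ∀ v, v ∈ verts Y → Re D v → v = w ∨ v = p ∨ v = o ∨ v = q) :
    ∃ d, ¬ Re D d ∧ Adj T d w ∧ Adj T d p ∧ Adj T d o ∧ Adj T d q := by
  classical
  have cT := hT.pl.disc.cx
  have cY := hR.disc.cx
  have b1 := bd_cyc hR.bd (cyc4_iff.2 (Or.inl ⟨rfl, rfl⟩))
  obtain ⟨e, he⟩ := b1.1
  have rw' : Re D w := hR.re w (by simp)
  have rp : Re D p := hR.re p (by simp)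
  have ro : Re D o := hR.re o (by simp)
  have rq : Re D q := hR.re q (by simp)
  have ew : e ≠ w := (cx_ne cY he).2.2
  have ep : e ≠ p := (cx_ne cY he).2.1.symm
  have her : ¬ Re D e := by
    intro her
    rcases hno e (vert3 cY he) her with h | h | h | h
    · exact ew h
    · exact ep h
    · subst h
      exact n1 (hT.re _ _ (Or.inr ⟨p, hR.sub (rot3 cY he).2⟩) rw' ro)
    · subst h
      exact n2 (hT.re _ _ (Or.inl ⟨w, hR.sub (rot3 cY he).1⟩) rp rq)
  have heY : e ∈ verts Y := vert3 cY he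
  have heZ : e ∉ [w, p, o, q] := fun h => her (hR.re e h)
  obtain ⟨x1, x2, x3, x4, a1, a2, a3, a4, a5⟩ := hT.du e (verts_mono hR.sub heY) her
  have irr : ∀ u, ¬ D u u := fun u h => hT.pl.asymm u u h h
  have hin : ∀ x, Adj T e x → Re D x → x = w ∨ x = p ∨ x = o ∨ x = q := by
    intro x hx hxr
    have h1 : x ∈ verts Y := by
      rcases hx with ⟨r, hr⟩ | ⟨r, hr⟩
      · exact vert2 cY (hR.tri_in heY heZ hr)
      · exact vert3 cY (hR.tri_in heY heZ (cT.rot hr))
    exact hno x h1 hxr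
  have hsub : ({x1, x2, x3, x4} : Finset V) ⊆ {w, p, o, q} := by
    intro x hx
    simp only [Finset.mem_insert, Finset.mem_singleton] at hx ⊢
    have hre : Re D x := by
      rcases hx with rfl | rfl | rfl | rfl
      · exact ⟨_, Or.inl a1⟩
      · exact ⟨_, Or.inl a2⟩
      · exact ⟨_, Or.inl a3⟩
      · exact ⟨_, Or.inl a4⟩
    exact hin x ((a5 x).2 hx) hre
  have hc1 : ({x1, x2, x3, x4} : Finset V).card = 4 := by
    rw [Finset.card_insert_of_notMem, Finset.card_insert_of_notMem,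
      Finset.card_insert_of_notMem, Finset.card_singleton]
    · simp only [Finset.mem_singleton]
      rintro rfl
      exact irr _ a3
    · simp only [Finset.mem_insert, Finset.mem_singleton, not_or]
      refine ⟨?_, ?_⟩
      · rintro rfl
        exact irr _ a2
      · rintro rfl
        exact hT.pl.asymm _ _ a2 a3
    · simp only [Finset.mem_insert, Finset.mem_singleton, not_or]
      refine ⟨?_, ?_, ?_⟩
      · rintro rfl
        exact irr _ a1
      · rintro rfl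
        exact hT.pl.asymm _ _ a1 a2
      · rintro rfl
        exact irr _ a4
  have hc2 : ({w, p, o, q} : Finset V).card ≤ 4 := Finset.card_le_four
  have heq := Finset.eq_of_subset_of_card_le hsub (by omega)
  have hall : ∀ x, x = w ∨ x = p ∨ x = o ∨ x = q → Adj T e x := by
    intro x hx
    apply (a5 x).2
    have : x ∈ ({x1, x2, x3, x4} : Finset V) := by
      rw [heq]
      simpa using hx
    simpa using this
  exact ⟨e, her, hall _ (Or.inl rfl), hall _ (Or.inr (Or.inl rfl)),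
    hall _ (Or.inr (Or.inr (Or.inl rfl))), hall _ (Or.inr (Or.inr (Or.inr rfl)))⟩

/-- fewer inner real vertices in a proper part -/
theorem nin_lt (h : ∀ v, v ∈ verts Y → Re D v → v ∉ C → v ∈ verts X ∧ v ∉ Z) {w : V}
    (hw : w ∈ verts X) (hwr : Re D w) (hwZ : w ∉ Z) (hwC : w ∈ verts Y → w ∈ C) :
    nin Y D C < nin X D Z := by
  classical
  unfold nin
  apply Finset.card_lt_card
  refine ⟨?_, fun hs => ?_⟩
  · intro v hv
    obtain ⟨h1, h2, h3⟩ := Finset.mem_filter.1 hv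
    obtain ⟨h4, h5⟩ := h v h1 h2 h3
    exact Finset.mem_filter.2 ⟨h4, h2, h5⟩
  · have := hs (Finset.mem_filter.2 ⟨hw, hwr, hwZ⟩)
    obtain ⟨h1, _, h3⟩ := Finset.mem_filter.1 this
    exact h3 (hwC h1)

end Pool.Agent.H96.G4
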