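import Pool.Agent.H13.G4.Bdh

/-!
# The double count

Every asker `a` sends `2` through the dummy `d` to `don a d`, every `X1` vertex sends `3` to its
two ends. The local inequalities at the inner vertices give the bound of the total charge of the
inner vertices by the requests at the boundary.
-/

set_option autoImplicit false

namespace Pool.Agent.H96.G4

open Relation Pool.Agent.H13.DA Pool.Agent.H72.G4 Pool.Agent.H13.G4

variable {V : Type*} [DecidableEq V] {T X : Finset (V × V × V)} {D : V → V → Prop} {Z : List V}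

open Classical in
/-- the pairs (asker, dummy) with donor `b` -/
noncomputable def fb (X : Finset (V × V × V)) (Ask : V → V → Prop) (don : V → V → V) (b : V) :
    Finset (V × V) :=
  (verts X ×ˢ verts X).filter (fun p => Ask p.1 p.2 ∧ don p.1 p.2 = b)

open Classical in
/-- **The double count.** -/
theorem double_count (hZ : Z.Nodup) (hZX : ∀ b, b ∈ Z → b ∈ verts X)
    (Ask : V → V → Prop) (don : V → V → V) (F Xr : V → V → Prop) (P1 : V → Prop)
    (U1 U2 R : V → V → Prop)
    (ha : ∀ a d, Ask a d → In X D Z a ∧ d ∈ verts X ∧ (In X D Z (don a d) ∨ don a d ∈ Z))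
    (h1 : ∀ a d d', Ask a d → Ask a d' → don a d = don a d' → don a d ∈ Z → ¬ F a d →
      ¬ F a d' → d = d')
    (h2 : ∀ a a' d, Ask a d → Ask a' d → don a d = don a' d → don a d ∈ Z → F a d →
      F a' d → a = a')
    (hu1 : ∀ a d, Ask a d → don a d ∈ Z → ¬ F a d → U1 (don a d) a)
    (hu2 : ∀ a d, Ask a d → don a d ∈ Z → F a d → U2 (don a d) d)
    (hx : ∀ v b, Xr v b → In X D Z v ∧ (In X D Z b ∨ b ∈ Z))
    (hx2 : ∀ v, In X D Z v → P1 v → ∃ b b', b ≠ b' ∧ Xr v b ∧ Xr v b')
    (hr : ∀ v b, Xr v b → b ∈ Z → R b v)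
    (loc : ∀ b, In X D Z b →
      6 * ((4 : ℤ) - sv T D b - qv T D b) + 2 * ((fb X Ask don b).card : ℤ) +
        3 * (((verts X).filter (fun v => Xr v b)).card : ℤ) ≤
        2 * (((verts X).filter (fun d => Ask b d)).card : ℤ) + if P1 b then 6 else 0) :
    6 * ∑ v ∈ (verts X).filter (fun v => Re D v ∧ v ∉ Z), ((4 : ℤ) - sv T D v - qv T D v) ≤
      (((Z.map (rq X U1 U2 R)).sum : ℕ) : ℤ) := by
  set S := verts X with hS
  set I := S.filter (fun v => Re D v ∧ v ∉ Z) with hI
  have memI : ∀ v, v ∈ I ↔ In X D Z v := fun v => Finset.mem_filter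
  set J := Z.toFinset with hJ
  have memJ : ∀ v, v ∈ J ↔ v ∈ Z := fun v => List.mem_toFinset
  have hdis : Disjoint I J := by
    rw [Finset.disjoint_left]
    intro v hv hv'
    exact ((memI v).1 hv).2.2 ((memJ v).1 hv')
  set A := (S ×ˢ S).filter (fun p : V × V => Ask p.1 p.2) with hA
  set B := (S ×ˢ S).filter (fun p : V × V => Xr p.1 p.2) with hB
  have inS : ∀ b, (In X D Z b ∨ b ∈ Z) → b ∈ S := by
    rintro b (h | h)
    · exact h.1
    · exact hZX b h
  -- asks, by asker
  have hA1 : A.card = ∑ b ∈ I, (S.filter (fun d => Ask b d)).card := by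
    rw [Finset.card_eq_sum_card_fiberwise (f := Prod.fst) (t := I)]
    · refine Finset.sum_congr rfl fun b hb => ?_
      refine Finset.card_bij (fun p _ => p.2) ?_ ?_ ?_
      · rintro ⟨a, d⟩ hp
        simp only [hA, Finset.mem_filter, Finset.mem_product] at hp
        obtain ⟨⟨⟨k1, k2⟩, k3⟩, k4⟩ := hp
        subst k4
        exact Finset.mem_filter.2 ⟨k2, k3⟩
      · rintro ⟨a, d⟩ hp ⟨a', d'⟩ hp' h
        have k4 := (Finset.mem_filter.1 hp).2
        have k4' := (Finset.mem_filter.1 hp').2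
        simp only at k4 k4' h
        rw [k4, k4', h]
      · intro d hd
        obtain ⟨k1, k2⟩ := Finset.mem_filter.1 hd
        refine ⟨(b, d), ?_, rfl⟩
        simp only [hA, Finset.mem_filter, Finset.mem_product]
        exact ⟨⟨⟨((memI b).1 hb).1, k1⟩, k2⟩, trivial⟩
    · intro p hp
      have hp' := (Finset.mem_filter.1 (Finset.mem_coe.1 hp)).2
      exact Finset.mem_coe.2 ((memI _).2 (ha _ _ hp').1)
  -- asks, by donor
  have hfb : ∀ b, fb X Ask don b = A.filter (fun p => don p.1 p.2 = b) := by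
    intro b
    ext p
    simp only [fb, hA, hS, Finset.mem_filter, and_assoc]
  have hA2 : A.card = ∑ b ∈ I, (fb X Ask don b).card + ∑ b ∈ J, (fb X Ask don b).card := by
    rw [← Finset.sum_union hdis,
      Finset.card_eq_sum_card_fiberwise (f := fun p : V × V => don p.1 p.2) (t := I ∪ J)]
    · exact Finset.sum_congr rfl fun b _ => by rw [hfb]
    · intro p hp
      have hp' := (Finset.mem_filter.1 (Finset.mem_coe.1 hp)).2
      rcases (ha _ _ hp').2.2 with h | h
      · exact Finset.mem_coe.2 (Finset.mem_union_left _ ((memI _).2 h))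
      · exact Finset.mem_coe.2 (Finset.mem_union_right _ ((memJ _).2 h))
  -- requests, by target
  have hB2 : B.card = ∑ b ∈ I, (S.filter (fun v => Xr v b)).card +
      ∑ b ∈ J, (S.filter (fun v => Xr v b)).card := by
    rw [← Finset.sum_union hdis,
      Finset.card_eq_sum_card_fiberwise (f := Prod.snd) (t := I ∪ J)]
    · refine Finset.sum_congr rfl fun b hb => ?_
      refine Finset.card_bij (fun p _ => p.1) ?_ ?_ ?_
      · rintro ⟨v, b'⟩ hp
        simp only [hB, Finset.mem_filter, Finset.mem_product] at hp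
        obtain ⟨⟨⟨k1, k2⟩, k3⟩, k4⟩ := hp
        subst k4
        exact Finset.mem_filter.2 ⟨k1, k3⟩
      · rintro ⟨a, d⟩ hp ⟨a', d'⟩ hp' h
        have k4 := (Finset.mem_filter.1 hp).2
        have k4' := (Finset.mem_filter.1 hp').2
        simp only at k4 k4' h
        rw [k4, k4', h]
      · intro v hv
        obtain ⟨k1, k2⟩ := Finset.mem_filter.1 hv
        refine ⟨(v, b), ?_, rfl⟩
        simp only [hB, Finset.mem_filter, Finset.mem_product]
        exact ⟨⟨⟨k1, inS b (hx v b k2).2⟩, k2⟩, trivial⟩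
    · intro p hp
      have hp' := (Finset.mem_filter.1 (Finset.mem_coe.1 hp)).2
      rcases (hx _ _ hp').2 with h | h
      · exact Finset.mem_coe.2 (Finset.mem_union_left _ ((memI _).2 h))
      · exact Finset.mem_coe.2 (Finset.mem_union_right _ ((memJ _).2 h))
  -- requests, by sender
  have hB1 : 2 * (I.filter P1).card ≤ B.card := by
    have e : B.card = ∑ v ∈ I, (S.filter (fun b => Xr v b)).card := by
      rw [Finset.card_eq_sum_card_fiberwise (f := Prod.fst) (t := I)]
      · refine Finset.sum_congr rfl fun v hv => ?_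
        refine Finset.card_bij (fun p _ => p.2) ?_ ?_ ?_
        · rintro ⟨a, d⟩ hp
          simp only [hB, Finset.mem_filter, Finset.mem_product] at hp
          obtain ⟨⟨⟨k1, k2⟩, k3⟩, k4⟩ := hp
          subst k4
          exact Finset.mem_filter.2 ⟨k2, k3⟩
        · rintro ⟨a, d⟩ hp ⟨a', d'⟩ hp' h
          have k4 := (Finset.mem_filter.1 hp).2
          have k4' := (Finset.mem_filter.1 hp').2
          simp only at k4 k4' h
          rw [k4, k4', h]
        · intro b hb
          obtain ⟨k1, k2⟩ := Finset.mem_filter.1 hb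
          refine ⟨(v, b), ?_, rfl⟩
          simp only [hB, Finset.mem_filter, Finset.mem_product]
          exact ⟨⟨⟨((memI v).1 hv).1, k1⟩, k2⟩, trivial⟩
      · intro p hp
        have hp' := (Finset.mem_filter.1 (Finset.mem_coe.1 hp)).2
        exact Finset.mem_coe.2 ((memI _).2 (hx _ _ hp').1)
    rw [e, Finset.card_filter, Finset.mul_sum]
    refine Finset.sum_le_sum fun v hv => ?_
    by_cases hp : P1 v
    · rw [if_pos hp]
      obtain ⟨b, b', hne, k1, k2⟩ := hx2 v ((memI v).1 hv) hp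
      have : 1 < (S.filter (fun b => Xr v b)).card := Finset.one_lt_card.2
        ⟨b, Finset.mem_filter.2 ⟨inS b (hx v b k1).2, k1⟩, b',
          Finset.mem_filter.2 ⟨inS b' (hx v b' k2).2, k2⟩, hne⟩
      omega
    · rw [if_neg hp]
      omega
  -- the boundary
  have hbz : ∀ b ∈ J, 2 * (fb X Ask don b).card + 3 * (S.filter (fun v => Xr v b)).card ≤
      rq X U1 U2 R b := by
    intro b hb
    have hbZ := (memJ b).1 hb
    have k1 : ((fb X Ask don b).filter (fun p => ¬ F p.1 p.2)).card ≤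
        (S.filter (U1 b)).card := by
      refine Finset.card_le_card_of_injOn Prod.fst ?_ ?_
      · rintro ⟨a, d⟩ hp
        simp only [fb, Finset.coe_filter, Finset.mem_filter, Finset.mem_product,
          Set.mem_setOf_eq] at hp
        obtain ⟨⟨⟨m1, m2⟩, m3, m4⟩, m5⟩ := hp
        refine Finset.mem_coe.2 (Finset.mem_filter.2 ⟨m1, ?_⟩)
        have := hu1 a d m3 (m4.symm ▸ hbZ) m5
        rwa [m4] at this
      · rintro ⟨a, d⟩ hp ⟨a', d'⟩ hp' h
        simp only [fb, Finset.coe_filter, Finset.mem_filter, Finset.mem_product,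
          Set.mem_setOf_eq] at hp hp' h
        obtain ⟨⟨⟨m1, m2⟩, m3, m4⟩, m5⟩ := hp
        obtain ⟨⟨⟨m1', m2'⟩, m3', m4'⟩, m5'⟩ := hp'
        subst h
        rw [h1 a d d' m3 m3' (m4.trans m4'.symm) (m4.symm ▸ hbZ) m5 m5']
    have k2 : ((fb X Ask don b).filter (fun p => F p.1 p.2)).card ≤
        (S.filter (U2 b)).card := by
      refine Finset.card_le_card_of_injOn Prod.snd ?_ ?_
      · rintro ⟨a, d⟩ hp
        simp only [fb, Finset.coe_filter, Finset.mem_filter, Finset.mem_product,
          Set.mem_setOf_eq] at hp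
        obtain ⟨⟨⟨m1, m2⟩, m3, m4⟩, m5⟩ := hp
        refine Finset.mem_coe.2 (Finset.mem_filter.2 ⟨m2, ?_⟩)
        have := hu2 a d m3 (m4.symm ▸ hbZ) m5
        rwa [m4] at this
      · rintro ⟨a, d⟩ hp ⟨a', d'⟩ hp' h
        simp only [fb, Finset.coe_filter, Finset.mem_filter, Finset.mem_product,
          Set.mem_setOf_eq] at hp hp' h
        obtain ⟨⟨⟨m1, m2⟩, m3, m4⟩, m5⟩ := hp
        obtain ⟨⟨⟨m1', m2'⟩, m3', m4'⟩, m5'⟩ := hp'
        subst h
        rw [h2 a a' d m3 m3' (m4.trans m4'.symm) (m4.symm ▸ hbZ) m5 m5']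
    have k3 := Finset.card_filter_add_card_filter_not (s := fb X Ask don b)
      (fun p : V × V => F p.1 p.2)
    have k4 : (S.filter (fun v => Xr v b)).card ≤ (S.filter (R b)).card := by
      refine Finset.card_le_card fun v hv => ?_
      obtain ⟨m1, m2⟩ := Finset.mem_filter.1 hv
      exact Finset.mem_filter.2 ⟨m1, hr v b m2 hbZ⟩
    have k5 : rq X U1 U2 R b = 2 * (S.filter (U1 b)).card + 2 * (S.filter (U2 b)).card +
        3 * (S.filter (R b)).card := by
      unfold rq cn
      rfl
    rw [k5]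
    omega
  have hsum : (Z.map (rq X U1 U2 R)).sum = ∑ b ∈ J, rq X U1 U2 R b :=
    (List.sum_toFinset _ hZ).symm
  have hloc := Finset.sum_le_sum fun b (hb : b ∈ I) => loc b ((memI b).1 hb)
  rw [Finset.sum_add_distrib, Finset.sum_add_distrib, Finset.sum_add_distrib, ← Finset.mul_sum,
    ← Finset.mul_sum, ← Finset.mul_sum, ← Finset.mul_sum] at hloc
  have hP : ∑ b ∈ I, (if P1 b then (6 : ℤ) else 0) = 6 * ((I.filter P1).card : ℤ) := by
    rw [← Finset.sum_filter, Finset.sum_const, nsmul_eq_mul, mul_comm]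
  rw [hP] at hloc
  have hJs := Finset.sum_le_sum hbz
  rw [Finset.sum_add_distrib, ← Finset.mul_sum, ← Finset.mul_sum] at hJs
  rw [hsum]
  have e1 : (A.card : ℤ) = ∑ b ∈ I, ((S.filter (fun d => Ask b d)).card : ℤ) := by
    rw [hA1]
    push_cast
    rfl
  have e2 : (A.card : ℤ) = ∑ b ∈ I, ((fb X Ask don b).card : ℤ) +
      ∑ b ∈ J, ((fb X Ask don b).card : ℤ) := by
    rw [hA2]
    push_cast
    rfl
  have e3 : (B.card : ℤ) = ∑ b ∈ I, ((S.filter (fun v => Xr v b)).card : ℤ) +
      ∑ b ∈ J, ((S.filter (fun v => Xr v b)).card : ℤ) := by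
    rw [hB2]
    push_cast
    rfl
  have e4 : 2 * ((I.filter P1).card : ℤ) ≤ B.card := by exact_mod_cast hB1
  have e5 : 2 * ∑ b ∈ J, ((fb X Ask don b).card : ℤ) +
      3 * ∑ b ∈ J, ((S.filter (fun v => Xr v b)).card : ℤ) ≤
      ((∑ b ∈ J, rq X U1 U2 R b : ℕ) : ℤ) := by exact_mod_cast hJs
  linarith

end Pool.Agent.H96.G4
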