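import Pool.Agent.H13.G4.Rep
import Pool.Agent.H13.G4.Count

/-!
# Flipping an inner edge of a disc

`quad_disc`: two triangles glued along an edge form a disc with a boundary of length four.
`flip`: the inner edge `xy` with triangles `(x,y,p)`, `(y,x,r)`, `p` and `r` not adjacent, is replaced
by the edge `pr`.
-/

set_option autoImplicit false

namespace Pool.Agent.H96.G4

open Relation Pool.Agent.H13.DA Pool.Agent.H72.G4 Pool.Agent.H13.G4

variable {V : Type*} [DecidableEq V] {T : Finset (V × V × V)}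

private theorem dir_q {a b c d u w : V} : Dir (tri a b c ∪ tri a c d) u w ↔
    ((u = a ∧ w = b) ∨ (u = b ∧ w = c) ∨ (u = c ∧ w = a)) ∨
      (u = a ∧ w = c) ∨ (u = c ∧ w = d) ∨ (u = d ∧ w = a) := by
  rw [dir_union, dir_tri, dir_tri]

/-- `uw` is a side of the quadrilateral -/
private def Sd4 (a b c d u w : V) : Prop :=
  ((u = a ∧ w = b) ∨ (u = b ∧ w = c) ∨ (u = c ∧ w = d) ∨ (u = d ∧ w = a)) ∨
    (w = a ∧ u = b) ∨ (w = b ∧ u = c) ∨ (w = c ∧ u = d) ∨ (w = d ∧ u = a)

omit [DecidableEq V] in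
private theorem sd4_rot {a b c d u w : V} : Sd4 a b c d u w ↔ Sd4 b c d a u w := by
  unfold Sd4
  constructor
  · rintro ((h | h | h | h) | (h | h | h | h))
    · exact Or.inl (Or.inr (Or.inr (Or.inr h)))
    · exact Or.inl (Or.inl h)
    · exact Or.inl (Or.inr (Or.inl h))
    · exact Or.inl (Or.inr (Or.inr (Or.inl h)))
    · exact Or.inr (Or.inr (Or.inr (Or.inr h)))
    · exact Or.inr (Or.inl h)
    · exact Or.inr (Or.inr (Or.inl h))
    · exact Or.inr (Or.inr (Or.inr (Or.inl h)))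
  · rintro ((h | h | h | h) | (h | h | h | h))
    · exact Or.inl (Or.inr (Or.inl h))
    · exact Or.inl (Or.inr (Or.inr (Or.inl h)))
    · exact Or.inl (Or.inr (Or.inr (Or.inr h)))
    · exact Or.inl (Or.inl h)
    · exact Or.inr (Or.inr (Or.inl h))
    · exact Or.inr (Or.inr (Or.inr (Or.inl h)))
    · exact Or.inr (Or.inr (Or.inr (Or.inr h)))
    · exact Or.inr (Or.inl h)

private theorem adj_q {a b c d u w : V} : Adj (tri a b c ∪ tri a c d) u w ↔
    Sd4 a b c d u w ∨ (u = a ∧ w = c) ∨ (u = c ∧ w = a) := by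
  rw [adj_dir, dir_q, dir_q]
  unfold Sd4
  constructor
  · rintro (((h | h | h) | h | h | h) | ((h | h | h) | h | h | h))
    · exact Or.inl (Or.inl (Or.inl h))
    · exact Or.inl (Or.inl (Or.inr (Or.inl h)))
    · exact Or.inr (Or.inr h)
    · exact Or.inr (Or.inl h)
    · exact Or.inl (Or.inl (Or.inr (Or.inr (Or.inl h))))
    · exact Or.inl (Or.inl (Or.inr (Or.inr (Or.inr h))))
    · exact Or.inl (Or.inr (Or.inl h))
    · exact Or.inl (Or.inr (Or.inr (Or.inl h)))
    · exact Or.inr (Or.inl ⟨h.2, h.1⟩)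
    · exact Or.inr (Or.inr ⟨h.2, h.1⟩)
    · exact Or.inl (Or.inr (Or.inr (Or.inr (Or.inl h))))
    · exact Or.inl (Or.inr (Or.inr (Or.inr (Or.inr h))))
  · rintro (((h | h | h | h) | (h | h | h | h)) | h | h)
    · exact Or.inl (Or.inl (Or.inl h))
    · exact Or.inl (Or.inl (Or.inr (Or.inl h)))
    · exact Or.inl (Or.inr (Or.inr (Or.inl h)))
    · exact Or.inl (Or.inr (Or.inr (Or.inr h)))
    · exact Or.inr (Or.inl (Or.inl h))
    · exact Or.inr (Or.inl (Or.inr (Or.inl h)))
    · exact Or.inr (Or.inr (Or.inr (Or.inl h)))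
    · exact Or.inr (Or.inr (Or.inr (Or.inr h)))
    · exact Or.inl (Or.inr (Or.inl h))
    · exact Or.inl (Or.inl (Or.inr (Or.inr h)))

theorem quad_disc {a b c d : V} (ab : a ≠ b) (ac : a ≠ c) (ad : a ≠ d) (bc : b ≠ c) (bd : b ≠ d)
    (cd : c ≠ d) : Disc (tri a b c ∪ tri a c d) ∧ IsBd (tri a b c ∪ tri a c d) [a, b, c, d] ∧
      verts (tri a b c ∪ tri a c d) = {a, b, c, d} := by
  classical
  have hcx0 : IsCx (tri a b c) := by
    refine ⟨fun h => tri_rot h, ?_, ?_⟩
    · intro x y z h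
      rw [mem_tri] at h
      simp only [Prod.mk.injEq] at h
      rcases h with ⟨rfl, rfl, rfl⟩ | ⟨rfl, rfl, rfl⟩ | ⟨rfl, rfl, rfl⟩
      · exact ab
      · exact bc
      · exact ac.symm
    · intro x y z w h h'
      rw [mem_tri] at h h'
      simp only [Prod.mk.injEq] at h h'
      rcases h with ⟨rfl, rfl, rfl⟩ | ⟨rfl, rfl, rfl⟩ | ⟨rfl, rfl, rfl⟩ <;>
        rcases h' with ⟨e1, e2, e3⟩ | ⟨e1, e2, e3⟩ | ⟨e1, e2, e3⟩ <;>
        first
          | exact e3.symm
          | exact absurd e1 ab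
          | exact absurd e1 bc
          | exact absurd e1 ac
          | exact absurd e1.symm ab
          | exact absurd e1.symm bc
          | exact absurd e1.symm ac
  have n1 : ¬ Dir (tri a b c) a c := by
    rw [dir_tri]
    rintro (⟨_, h⟩ | ⟨h, _⟩ | ⟨h, _⟩)
    · exact bc h.symm
    · exact ab h
    · exact ac h
  have n2 : ¬ Dir (tri a b c) c d := by
    rw [dir_tri]
    rintro (⟨h, _⟩ | ⟨h, _⟩ | ⟨_, h⟩)
    · exact ac h.symm
    · exact bc h.symm
    · exact ad h.symm
  have n3 : ¬ Dir (tri a b c) d a := by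
    rw [dir_tri]
    rintro (⟨h, _⟩ | ⟨h, _⟩ | ⟨h, _⟩)
    · exact ad h.symm
    · exact bd h.symm
    · exact cd h.symm
  have hcx : IsCx (tri a b c ∪ tri a c d) := cx_add hcx0 ac cd ad.symm n1 n2 n3
  have hdj : Disjoint (tri a b c) (tri a c d) := tri_disj hcx0 n1
  have hcn : Conn (tri a b c ∪ tri a c d) :=
    conn_add (a := c) (b := a) (conn_tri a b c) (conn_tri a c d)
      (dir_tri.2 (Or.inr (Or.inr ⟨rfl, rfl⟩))) (dir_tri.2 (Or.inl ⟨rfl, rfl⟩))
  have hbd : IsBd (tri a b c ∪ tri a c d) [a, b, c, d] := by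
    refine ⟨?_, by simp, ?_⟩
    · simp only [List.nodup_cons, List.mem_cons, List.not_mem_nil, or_false, not_or,
        not_false_eq_true, List.nodup_nil, and_true]
      exact ⟨⟨ab, ac, ad⟩, ⟨bc, bd⟩, cd⟩
    · intro u w
      rw [bd_dir, dir_q, dir_q]
      have e : Cyc [a, b, c, d] u w ↔
          (u = a ∧ w = b) ∨ (u = b ∧ w = c) ∨ (u = c ∧ w = d) ∨ (u = d ∧ w = a) := by
        simp [Cyc, Nx]
      rw [e]
      constructor
      · rintro ⟨(h | h | h) | h | h | h, h'⟩
        · exact Or.inl h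
        · exact Or.inr (Or.inl h)
        · exact absurd (Or.inr (Or.inl ⟨h.2, h.1⟩)) h'
        · exact absurd (Or.inl (Or.inr (Or.inr ⟨h.2, h.1⟩))) h'
        · exact Or.inr (Or.inr (Or.inl h))
        · exact Or.inr (Or.inr (Or.inr h))
      · rintro (⟨rfl, rfl⟩ | ⟨rfl, rfl⟩ | ⟨rfl, rfl⟩ | ⟨rfl, rfl⟩)
        · refine ⟨Or.inl (Or.inl ⟨rfl, rfl⟩), ?_⟩
          rintro ((⟨h, _⟩ | ⟨_, h⟩ | ⟨h, _⟩) | ⟨h, _⟩ | ⟨h, _⟩ | ⟨h, _⟩)
          · exact ab h.symm
          · exact ac h
          · exact bc h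
          · exact ab h.symm
          · exact bc h
          · exact bd h
        · refine ⟨Or.inl (Or.inr (Or.inl ⟨rfl, rfl⟩)), ?_⟩
          rintro ((⟨h, _⟩ | ⟨h, _⟩ | ⟨_, h⟩) | ⟨h, _⟩ | ⟨_, h⟩ | ⟨h, _⟩)
          · exact ac h.symm
          · exact bc h.symm
          · exact ab h.symm
          · exact ac h.symm
          · exact bd h
          · exact cd h
        · refine ⟨Or.inr (Or.inr (Or.inl ⟨rfl, rfl⟩)), ?_⟩
          rintro ((⟨h, _⟩ | ⟨h, _⟩ | ⟨h, _⟩) | ⟨h, _⟩ | ⟨h, _⟩ | ⟨_, h⟩)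
          · exact ad h.symm
          · exact bd h.symm
          · exact cd h.symm
          · exact ad h.symm
          · exact cd h.symm
          · exact ac h.symm
        · refine ⟨Or.inr (Or.inr (Or.inr ⟨rfl, rfl⟩)), ?_⟩
          rintro ((⟨_, h⟩ | ⟨h, _⟩ | ⟨h, _⟩) | ⟨_, h⟩ | ⟨h, _⟩ | ⟨h, _⟩)
          · exact bd h.symm
          · exact ab h
          · exact ac h
          · exact cd h.symm
          · exact ac h
          · exact ad h
  have hvt : verts (tri a b c ∪ tri a c d) = {a, b, c, d} := by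
    rw [verts_union, verts_tri, verts_tri]
    ext z
    simp only [Finset.mem_union, Finset.mem_insert, Finset.mem_singleton]
    constructor
    · rintro ((h | h | h) | h | h | h)
      · exact Or.inl h
      · exact Or.inr (Or.inl h)
      · exact Or.inr (Or.inr (Or.inl h))
      · exact Or.inl h
      · exact Or.inr (Or.inr (Or.inl h))
      · exact Or.inr (Or.inr (Or.inr h))
    · rintro (h | h | h | h)
      · exact Or.inl (Or.inl h)
      · exact Or.inl (Or.inr (Or.inl h))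
      · exact Or.inl (Or.inr (Or.inr h))
      · exact Or.inr (Or.inr (Or.inr h))
  refine ⟨⟨hcx, hcn, ⟨a, b, (hbd.iff a b).2 (by simp [Cyc, Nx])⟩, ?_⟩, hbd, hvt⟩
  rw [chi_union _ _ hdj, chi_tri ab bc ac.symm, chi_tri ac cd ad.symm]
  have e1 : verts (tri a b c) ∩ verts (tri a c d) = {a, c} := by
    rw [verts_tri, verts_tri]
    ext z
    simp only [Finset.mem_inter, Finset.mem_insert, Finset.mem_singleton]
    constructor
    · rintro ⟨rfl | rfl | rfl, h⟩
      · exact Or.inl rfl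
      · rcases h with h | h | h
        · exact absurd h.symm ab
        · exact absurd h bc
        · exact absurd h bd
      · exact Or.inr rfl
    · rintro (rfl | rfl)
      · exact ⟨Or.inl rfl, Or.inl rfl⟩
      · exact ⟨Or.inr (Or.inr rfl), Or.inr (Or.inl rfl)⟩
  have e2 : edges (tri a b c) ∩ edges (tri a c d) = {s(a, c)} := by
    rw [edges_tri, edges_tri]
    ext z
    simp only [Finset.mem_inter, Finset.mem_insert, Finset.mem_singleton]
    constructor
    · rintro ⟨h, h'⟩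
      rcases h with rfl | rfl | rfl
      · rcases h' with h | h | h
        · exact h
        · rcases Sym2.eq_iff.1 h with ⟨h, _⟩ | ⟨h, _⟩
          · exact absurd h ac
          · exact absurd h ad
        · rcases Sym2.eq_iff.1 h with ⟨h, _⟩ | ⟨_, h⟩
          · exact absurd h ad
          · exact absurd h bd
      · rcases h' with h | h | h
        · exact h
        · rcases Sym2.eq_iff.1 h with ⟨h, _⟩ | ⟨h, _⟩
          · exact absurd h bc
          · exact absurd h bd
        · rcases Sym2.eq_iff.1 h with ⟨h, _⟩ | ⟨h, _⟩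
          · exact absurd h bd
          · exact absurd h.symm ab
      · exact Sym2.eq_swap
    · rintro rfl
      exact ⟨Or.inr (Or.inr Sym2.eq_swap), Or.inl rfl⟩
  rw [e1, e2, Finset.card_pair ac, Finset.card_singleton]
  norm_num

/-- the flip of the inner edge `xy` -/
theorem flip (hD : Disc T) {x y p r : V} (h1 : (x, y, p) ∈ T) (h2 : (y, x, r) ∈ T) (hpr : p ≠ r)
    (hn : ¬ Adj T p r) :
    ∃ T' : Finset (V × V × V), Disc T' ∧ (∀ l, IsBd T l → IsBd T' l) ∧
      (∀ u v, Adj T' u v ↔ (Adj T u v ∧ ¬ (u = x ∧ v = y) ∧ ¬ (u = y ∧ v = x)) ∨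
        (u = p ∧ v = r) ∨ (u = r ∧ v = p)) ∧
      verts T' = verts T ∧ T'.card = T.card ∧
      ∀ t ∈ T, t ∉ tri x y p → t ∉ tri y x r → t ∈ T' := by
  classical
  have hT := hD.cx
  have xy := hT.ne h1
  have yp := hT.ne (hT.rot h1)
  have px := hT.ne (hT.rot (hT.rot h1))
  have xr := hT.ne (hT.rot h2)
  have ry := hT.ne (hT.rot (hT.rot h2))
  obtain ⟨q1, q2, q3⟩ := quad_disc (a := y) (b := p) (c := x) (d := r) yp xy.symm ry.symm px hpr xr
  obtain ⟨q4, q5, q6⟩ := quad_disc (a := p) (b := x) (c := r) (d := y) px hpr yp.symm xr xy ry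
  have hXT : tri y p x ∪ tri y x r ⊆ T := by
    intro t ht
    rcases Finset.mem_union.1 ht with ht | ht
    · rw [mem_tri] at ht
      rcases ht with rfl | rfl | rfl
      · exact hT.rot h1
      · exact hT.rot (hT.rot h1)
      · exact h1
    · rw [mem_tri] at ht
      rcases ht with rfl | rfl | rfl
      · exact h2
      · exact hT.rot h2
      · exact hT.rot (hT.rot h2)
  have q5' : IsBd (tri p x r ∪ tri p r y) [y, p, x, r] := q5.rot ⟨3, by rfl⟩
  have hcyc : ∀ u v, Cyc [y, p, x, r] u v ↔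
      (u = y ∧ v = p) ∨ (u = p ∧ v = x) ∨ (u = x ∧ v = r) ∨ (u = r ∧ v = y) := by
    intro u v
    simp [Cyc, Nx]
  have hA : ∀ u v, Adj (tri p x r ∪ tri p r y) u v → Adj (T \ (tri y p x ∪ tri y x r)) u v →
      Cyc [y, p, x, r] u v ∨ Cyc [y, p, x, r] v u := by
    intro u v a1 a2
    have a3 : Adj T u v := by
      rcases a2 with ⟨c, hc⟩ | ⟨c, hc⟩
      · exact Or.inl ⟨c, (Finset.mem_sdiff.1 hc).1⟩
      · exact Or.inr ⟨c, (Finset.mem_sdiff.1 hc).1⟩
    have a4 : ¬ (u = p ∧ v = r) := fun ⟨e1, e2⟩ => hn (by rw [← e1, ← e2]; exact a3)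
    have a5 : ¬ (u = r ∧ v = p) := fun ⟨e1, e2⟩ => hn (by rw [← e1, ← e2]; exact a3.symm)
    rw [adj_q, ← sd4_rot] at a1
    rcases a1 with a1 | a1 | a1
    · rcases a1 with a1 | a1
      · exact Or.inl ((hcyc u v).2 a1)
      · refine Or.inr ((hcyc v u).2 ?_)
        rcases a1 with h | h | h | h
        · exact Or.inl h
        · exact Or.inr (Or.inl h)
        · exact Or.inr (Or.inr (Or.inl h))
        · exact Or.inr (Or.inr (Or.inr h))
    · exact absurd a1 a4
    · exact absurd a1 a5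
  have hVZ : ∀ v, v ∈ verts (tri y p x ∪ tri y x r) →
      v ∈ verts (T \ (tri y p x ∪ tri y x r)) → v ∈ [y, p, x, r] := by
    intro v hv _
    rw [q3] at hv
    simpa using hv
  have hVZ' : ∀ v, v ∈ verts (tri p x r ∪ tri p r y) →
      v ∈ verts (T \ (tri y p x ∪ tri y x r)) → v ∈ [y, p, x, r] := by
    intro v hv _
    rw [q6] at hv
    simp only [Finset.mem_insert, Finset.mem_singleton] at hv
    simp only [List.mem_cons, List.not_mem_nil, or_false]
    rcases hv with h | h | h | h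
    · exact Or.inr (Or.inl h)
    · exact Or.inr (Or.inr (Or.inl h))
    · exact Or.inr (Or.inr (Or.inr h))
    · exact Or.inl h
  obtain ⟨r1, r2⟩ := replace hD hXT q1 q2 hVZ q4 q5' hVZ' hA
  have hvt : verts (T \ (tri y p x ∪ tri y x r) ∪ (tri p x r ∪ tri p r y)) = verts T := by
    have e0 : verts (T \ (tri y p x ∪ tri y x r) ∪ (tri y p x ∪ tri y x r)) = verts T := by
      rw [Finset.sdiff_union_of_subset hXT]
    have e1 : ({y, p, x, r} : Finset V) = {p, x, r, y} := by
      ext z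
      simp only [Finset.mem_insert, Finset.mem_singleton]
      constructor
      · rintro (h | h | h | h)
        · exact Or.inr (Or.inr (Or.inr h))
        · exact Or.inl h
        · exact Or.inr (Or.inl h)
        · exact Or.inr (Or.inr (Or.inl h))
      · rintro (h | h | h | h)
        · exact Or.inr (Or.inl h)
        · exact Or.inr (Or.inr (Or.inl h))
        · exact Or.inr (Or.inr (Or.inr h))
        · exact Or.inl h
    rw [← e0, verts_union _ (tri p x r ∪ tri p r y), verts_union _ (tri y p x ∪ tri y x r), q3, q6,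
      e1]
  refine ⟨_, r1, r2, ?_, hvt, ?_, ?_⟩
  · intro u v
    have s1 : Adj (T \ (tri y p x ∪ tri y x r) ∪ (tri p x r ∪ tri p r y)) u v ↔
        Adj (T \ (tri y p x ∪ tri y x r)) u v ∨ Adj (tri p x r ∪ tri p r y) u v := by
      have du : ∀ a b, Dir (T \ (tri y p x ∪ tri y x r) ∪ (tri p x r ∪ tri p r y)) a b ↔
          Dir (T \ (tri y p x ∪ tri y x r)) a b ∨ Dir (tri p x r ∪ tri p r y) a b :=
        fun a b => dir_union
      rw [adj_dir, adj_dir, adj_dir, du, du]
      exact or_or_or_comm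
    have s2 : Adj T u v ↔
        Adj (T \ (tri y p x ∪ tri y x r)) u v ∨ Adj (tri y p x ∪ tri y x r) u v := by
      rw [adj_dir, adj_dir, adj_dir, dir_split hXT, dir_split hXT (a := v)]
      constructor
      · rintro ((h | h) | (h | h))
        · exact Or.inr (Or.inl h)
        · exact Or.inl (Or.inl h)
        · exact Or.inr (Or.inr h)
        · exact Or.inl (Or.inr h)
      · rintro ((h | h) | (h | h))
        · exact Or.inl (Or.inr h)
        · exact Or.inr (Or.inr h)
        · exact Or.inl (Or.inl h)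
        · exact Or.inr (Or.inl h)
    have s3 : Adj (T \ (tri y p x ∪ tri y x r)) u v → ¬ (u = x ∧ v = y) ∧ ¬ (u = y ∧ v = x) := by
      have k1 : ¬ Dir (T \ (tri y p x ∪ tri y x r)) x y := fun h =>
        dir_ex hT hXT (dir_union.2 (Or.inl (dir_tri.2 (Or.inr (Or.inr ⟨rfl, rfl⟩))))) h
      have k2 : ¬ Dir (T \ (tri y p x ∪ tri y x r)) y x := fun h =>
        dir_ex hT hXT (dir_union.2 (Or.inr (dir_tri.2 (Or.inl ⟨rfl, rfl⟩)))) h
      intro h
      constructor
      · rintro ⟨rfl, rfl⟩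
        rcases adj_dir.1 h with h | h
        · exact k1 h
        · exact k2 h
      · rintro ⟨rfl, rfl⟩
        rcases adj_dir.1 h with h | h
        · exact k2 h
        · exact k1 h
    have s4 : Sd4 y p x r u v → ¬ (u = x ∧ v = y) ∧ ¬ (u = y ∧ v = x) := by
      rintro ((⟨rfl, rfl⟩ | ⟨rfl, rfl⟩ | ⟨rfl, rfl⟩ | ⟨rfl, rfl⟩) |
        (⟨rfl, rfl⟩ | ⟨rfl, rfl⟩ | ⟨rfl, rfl⟩ | ⟨rfl, rfl⟩))
      · exact ⟨fun h => yp h.2.symm, fun h => px h.2⟩
      · exact ⟨fun h => px h.1, fun h => yp h.1.symm⟩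
      · exact ⟨fun h => ry h.2, fun h => xy h.1⟩
      · exact ⟨fun h => xr h.1.symm, fun h => ry h.1⟩
      · exact ⟨fun h => px h.1, fun h => xy h.2.symm⟩
      · exact ⟨fun h => yp h.2.symm, fun h => xy h.1⟩
      · exact ⟨fun h => xr h.1.symm, fun h => ry h.1⟩
      · exact ⟨fun h => xy h.1.symm, fun h => xr h.2.symm⟩
    rw [s1, s2, adj_q, adj_q, ← sd4_rot]
    constructor
    · rintro (h | h | h)
      · exact Or.inl ⟨Or.inl h, s3 h⟩
      · exact Or.inl ⟨Or.inr (Or.inl h), s4 h⟩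
      · exact Or.inr h
    · rintro (⟨h | h | h | h, h1, h2⟩ | h)
      · exact Or.inl h
      · exact Or.inr (Or.inl h)
      · exact absurd h h2
      · exact absurd h h1
      · exact Or.inr (Or.inr h)
  · obtain ⟨l, hl⟩ := disc_list hD
    have c1 := card_disc hD hl
    have c2 := card_disc r1 (r2 l hl)
    rw [hvt] at c2
    have : ((T \ (tri y p x ∪ tri y x r) ∪ (tri p x r ∪ tri p r y)).card : ℤ) = T.card := by
      rw [c1, c2]
    exact_mod_cast this
  · intro t ht n1 n2
    refine Finset.mem_union_left _ (Finset.mem_sdiff.2 ⟨ht, fun h => ?_⟩)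
    rcases Finset.mem_union.1 h with h | h
    · apply n1
      rw [mem_tri] at h ⊢
      rcases h with h | h | h
      · exact Or.inr (Or.inl h)
      · exact Or.inr (Or.inr h)
      · exact Or.inl h
    · exact n2 h

end Pool.Agent.H96.G4
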