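import Pool.Agent.H96.G4.Cut
import Pool.Agent.H80.G4.Deg3

/-!
# Lemma 1, geometric half: the smallest chordless 4-cycle with inner real vertices

`four_geo` : if an inner real vertex is not good, there is a chordless real 4-cycle whose region
either satisfies `Rg` (all inner real vertices good, no inner vertex joined to two opposite
vertices of the cycle), or has exactly one inner real vertex, joined to the four vertices by four
real faces.
-/

set_option autoImplicit false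

namespace Pool.Agent.H96.G4

open Relation Pool.Agent.H13.DA Pool.Agent.H72.G4 Pool.Agent.H13.G4

variable {V : Type*} [DecidableEq V] {T X Y : Finset (V × V × V)} {D : V → V → Prop} {a b c : V}
  {Z C : List V}

/-- chordless 4-cycle with an inner real vertex -/
structure Q4 (T X : Finset (V × V × V)) (D : V → V → Prop) (z1 z2 z3 z4 : V) : Prop where
  reg : Reg T X D [z1, z2, z3, z4]
  chl : Chl D [z1, z2, z3, z4]
  inn : ∃ u, u ∈ verts X ∧ Re D u ∧ u ∉ [z1, z2, z3, z4]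

/-- a smallest one -/
structure Min4 (T X : Finset (V × V × V)) (D : V → V → Prop) (z1 z2 z3 z4 : V) : Prop
    extends Q4 T X D z1 z2 z3 z4 where
  min : ∀ X' y1 y2 y3 y4, Q4 T X' D y1 y2 y3 y4 →
    nin X D [z1, z2, z3, z4] ≤ nin X' D [y1, y2, y3, y4]

omit [DecidableEq V] in
theorem chl4 {w p o q : V} (irr : ∀ x, ¬ D x x) (h1 : Ar D w p) (h2 : Ar D p o) (h3 : Ar D o q)
    (h4 : Ar D q w) (n1 : ¬ Ar D w o) (n2 : ¬ Ar D p q) : Chl D [w, p, o, q] := by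
  have irr' : ∀ x, ¬ Ar D x x := fun x h => h.elim (irr x) (irr x)
  refine ⟨?_, ?_⟩
  · intro x y h
    rcases cyc4_iff.1 h with ⟨rfl, rfl⟩ | ⟨rfl, rfl⟩ | ⟨rfl, rfl⟩ | ⟨rfl, rfl⟩
    · exact h1
    · exact h2
    · exact h3
    · exact h4
  · intro x y hx hy h
    simp only [List.mem_cons, List.not_mem_nil, or_false] at hx hy
    rw [cyc4_iff, cyc4_iff]
    rcases hx with rfl | rfl | rfl | rfl <;> rcases hy with rfl | rfl | rfl | rfl
    · exact absurd h (irr' _)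
    · exact Or.inl (Or.inl ⟨rfl, rfl⟩)
    · exact absurd h n1
    · exact Or.inr (Or.inr (Or.inr (Or.inr ⟨rfl, rfl⟩)))
    · exact Or.inr (Or.inl ⟨rfl, rfl⟩)
    · exact absurd h (irr' _)
    · exact Or.inl (Or.inr (Or.inl ⟨rfl, rfl⟩))
    · exact absurd h n2
    · exact absurd (ar_symm h) n1
    · exact Or.inr (Or.inr (Or.inl ⟨rfl, rfl⟩))
    · exact absurd h (irr' _)
    · exact Or.inl (Or.inr (Or.inr (Or.inl ⟨rfl, rfl⟩)))
    · exact Or.inl (Or.inr (Or.inr (Or.inr ⟨rfl, rfl⟩)))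
    · exact absurd (ar_symm h) n2
    · exact Or.inr (Or.inr (Or.inr (Or.inl ⟨rfl, rfl⟩)))
    · exact absurd h (irr' _)

theorem bd_ar (hT : Ts T D a b c) (hR : Reg T X D Z) {x y : V} (h : Cyc Z x y) : Ar D x y := by
  obtain ⟨e, he⟩ := (bd_cyc hR.bd h).1
  exact hT.re x y (Or.inl ⟨e, hR.sub he⟩) (hR.re x (cyc_mem h).1) (hR.re y (cyc_mem h).2)

/-- a 4-cycle of arcs in a region without chords bounds a region -/
theorem cut4 (hT : Ts T D a b c) (hR : Reg T X D Z) {w p o q : V} (h1 : Adj X w p)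
    (h2 : Adj X p o) (h3 : Adj X o q) (h4 : Adj X q w) (nwo : w ≠ o) (npq : p ≠ q)
    (rw' : Re D w) (rp : Re D p) (ro : Re D o) (rq : Re D q) :
    ∃ Y p' q', ((p' = p ∧ q' = q) ∨ (p' = q ∧ q' = p)) ∧ Y ⊆ X ∧ Reg T Y D [w, p', o, q'] ∧
      ∀ v, v ∈ verts Y → v ∉ [w, p', o, q'] → v ∈ verts X ∧ v ∉ Z := by
  have cT := hT.pl.disc.cx
  have cX := hR.disc.cx
  have n1 := adj_ne cX h1
  have n2 := adj_ne cX h2
  have n3 := adj_ne cX h3
  have n4 := adj_ne cX h4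
  have hnd : [w, p, o, q].Nodup := by
    simp only [List.nodup_cons, List.mem_cons, List.not_mem_nil, or_false, not_or,
      not_false_eq_true, List.nodup_nil, and_true]
    exact ⟨⟨n1, nwo, n4.symm⟩, ⟨n2, npq⟩, n3⟩
  obtain ⟨Y, k1, k2, k3⟩ := reg_cut cT hR hnd (by simp) (by
    intro x y h
    rcases cyc4_iff.1 h with ⟨rfl, rfl⟩ | ⟨rfl, rfl⟩ | ⟨rfl, rfl⟩ | ⟨rfl, rfl⟩
    · exact h1
    · exact h2
    · exact h3
    · exact h4) (by
    intro v hv
    simp only [List.mem_cons, List.not_mem_nil, or_false] at hv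
    rcases hv with rfl | rfl | rfl | rfl
    · exact rw'
    · exact rp
    · exact ro
    · exact rq)
  rcases k2 with k2 | k2
  · exact ⟨Y, p, q, Or.inl ⟨rfl, rfl⟩, k1, k2, k3⟩
  · refine ⟨Y, q, p, Or.inr ⟨rfl, rfl⟩, k1, ?_, ?_⟩
    · refine reg_rot k2 ⟨3, ?_⟩
      simp [List.rotate]
    · intro v hv hvC
      refine k3 v hv (fun h => hvC ?_)
      simp only [List.mem_cons, List.not_mem_nil, or_false] at h ⊢
      rcases h with h | h | h | h
      · exact Or.inl h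
      · exact Or.inr (Or.inr (Or.inr h))
      · exact Or.inr (Or.inr (Or.inl h))
      · exact Or.inr (Or.inl h)

/-- the region of a chordless 4-cycle in a region: `Q4`, or all joined to a dummy -/
theorem cut4_q (hT : Ts T D a b c) (hR : Reg T X D Z) {w p o q : V} (h1 : Adj X w p)
    (h2 : Adj X p o) (h3 : Adj X o q) (h4 : Adj X q w) (nwo : w ≠ o) (npq : p ≠ q)
    (rw' : Re D w) (rp : Re D p) (ro : Re D o) (rq : Re D q) (c1 : ¬ Ar D w o)
    (c2 : ¬ Ar D p q) :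
    (∃ Y p' q', ((p' = p ∧ q' = q) ∨ (p' = q ∧ q' = p)) ∧ Q4 T Y D w p' o q' ∧
      ∀ v, v ∈ verts Y → v ∉ [w, p', o, q'] → v ∈ verts X ∧ v ∉ Z) ∨
    ∃ d, ¬ Re D d ∧ Adj T d w ∧ Adj T d p ∧ Adj T d q ∧ Adj T d o := by
  obtain ⟨Y, p', q', e, k1, k2, k3⟩ := cut4 hT hR h1 h2 h3 h4 nwo npq rw' rp ro rq
  have irr : ∀ u, ¬ D u u := fun u h => hT.pl.asymm u u h h
  have c2' : ¬ Ar D p' q' := by
    rcases e with ⟨rfl, rfl⟩ | ⟨rfl, rfl⟩
    · exact c2
    · exact fun h => c2 (ar_symm h)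
  have hch : Chl D [w, p', o, q'] := chl4 irr
    (bd_ar hT k2 (cyc4_iff.2 (Or.inl ⟨rfl, rfl⟩)))
    (bd_ar hT k2 (cyc4_iff.2 (Or.inr (Or.inl ⟨rfl, rfl⟩))))
    (bd_ar hT k2 (cyc4_iff.2 (Or.inr (Or.inr (Or.inl ⟨rfl, rfl⟩)))))
    (bd_ar hT k2 (cyc4_iff.2 (Or.inr (Or.inr (Or.inr ⟨rfl, rfl⟩))))) c1 c2'
  by_cases hin : ∃ u, u ∈ verts Y ∧ Re D u ∧ u ∉ [w, p', o, q']
  · exact Or.inl ⟨Y, p', q', e, ⟨k2, hch, hin⟩, k3⟩
  · right
    have hno : ∀ v, v ∈ verts Y → Re D v → v = w ∨ v = p' ∨ v = o ∨ v = q' := by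
      intro v hv hvr
      by_contra hc
      exact hin ⟨v, hv, hvr, fun h => hc (by simpa using h)⟩
    obtain ⟨d, d1, d2, d3, d4, d5⟩ := reg_quad hT k2 c1 c2' hno
    rcases e with ⟨rfl, rfl⟩ | ⟨rfl, rfl⟩
    · exact ⟨d, d1, d2, d3, d5, d4⟩
    · exact ⟨d, d1, d2, d5, d3, d4⟩

theorem exists_q4 (hT : Ts T D a b c) {v : V} (hg : ¬ Good T D v) :
    ∃ X z1 z2 z3 z4, Q4 T X D z1 z2 z3 z4 := by
  unfold H72.G4.Good at hg
  push Not at hg
  obtain ⟨p, q, o, h1, h2, h3, h4, h5, h6, h7, h8, h9⟩ := hg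
  have adj := fun {x y : V} (h : Ar D x y) => hT.pl.ar_adj h
  rcases cut4_q hT (reg_self hT) (adj h1) (adj h6) (adj (ar_symm h7)) (adj (ar_symm h2)) h5.symm h3
    (ar_re h1).1 (ar_re h1).2 (ar_re h6).2 (ar_re h2).2 h8 h4 with
    ⟨Y, p', q', _, k1, _⟩ | ⟨d, d1, d2, d3, d4, d5⟩
  · exact ⟨Y, _, _, _, _, k1⟩
  · exact absurd d5 (h9 d d1 d2 d3 d4)

theorem exists_min4 (h : ∃ X z1 z2 z3 z4, Q4 T X D z1 z2 z3 z4) :
    ∃ X z1 z2 z3 z4, Min4 T X D z1 z2 z3 z4 := by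
  classical
  have h' : ∃ n, ∃ X z1 z2 z3 z4, Q4 T X D z1 z2 z3 z4 ∧ nin X D [z1, z2, z3, z4] = n := by
    obtain ⟨X, z1, z2, z3, z4, hX⟩ := h
    exact ⟨_, X, z1, z2, z3, z4, hX, rfl⟩
  obtain ⟨X, z1, z2, z3, z4, hX, hn⟩ := Nat.find_spec h'
  refine ⟨X, z1, z2, z3, z4, hX, fun X' y1 y2 y3 y4 hX' => ?_⟩
  rw [hn]
  exact Nat.find_min' h' ⟨X', y1, y2, y3, y4, hX', rfl⟩

/-- a 4-cycle through an inner vertex `w` of a smallest region has no inner real vertices -/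
theorem Min4.part {z1 z2 z3 z4 : V} (hM : Min4 T X D z1 z2 z3 z4) (hT : Ts T D a b c)
    {x y z w : V} (hw : w ∈ verts X) (hwr : Re D w) (hwZ : w ∉ [z1, z2, z3, z4])
    (hR : Reg T Y D [x, y, z, w])
    (hin : ∀ v, v ∈ verts Y → v ∉ [x, y, z, w] → v ∈ verts X ∧ v ∉ [z1, z2, z3, z4])
    (hxz : ¬ Ar D x z) (hyw : Ar D y w → Adj Y y w) :
    ∀ u, u ∈ verts Y → Re D u → u ∈ [x, y, z, w] := by
  have cT := hT.pl.disc.cx
  have irr : ∀ u, ¬ D u u := fun u h => hT.pl.asymm u u h h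
  have hwT : ¬ Tr a b c w := hM.reg.inner hT hw hwZ
  intro u hu hur
  by_contra hc
  by_cases hh : Ar D y w
  · have hR' : Reg T Y D (y :: ([z] ++ w :: [x])) := reg_rot hR ⟨1, by simp [List.rotate]⟩
    obtain ⟨A, B, e, s1, s2, r1, r2, -⟩ := reg_chord cT hR' (by simp) (by simp) (hyw hh)
    rw [e, verts_union, Finset.mem_union] at hu
    rcases hu with hu | hu
    · rcases reg_tri hT r1 (fun h => hwT h.2.2) u hu with rfl | rfl | rfl
      · exact hc (by simp)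
      · exact hc (by simp)
      · exact hc (by simp)
    · rcases reg_tri hT r2 (fun h => hwT h.1) u hu with rfl | rfl | rfl
      · exact hc (by simp)
      · exact hc (by simp)
      · exact hc (by simp)
  · have hch : Chl D [x, y, z, w] := chl4 irr
      (bd_ar hT hR (cyc4_iff.2 (Or.inl ⟨rfl, rfl⟩)))
      (bd_ar hT hR (cyc4_iff.2 (Or.inr (Or.inl ⟨rfl, rfl⟩))))
      (bd_ar hT hR (cyc4_iff.2 (Or.inr (Or.inr (Or.inl ⟨rfl, rfl⟩)))))
      (bd_ar hT hR (cyc4_iff.2 (Or.inr (Or.inr (Or.inr ⟨rfl, rfl⟩))))) hxz hh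
    have h1 := hM.min Y x y z w ⟨hR, hch, u, hu, hur, hc⟩
    have h2 : nin Y D [x, y, z, w] < nin X D [z1, z2, z3, z4] :=
      nin_lt (fun v hv _ hvC => hin v hv hvC) hw hwr hwZ (fun _ => by simp)
    omega

omit [DecidableEq V] in
theorem rot4 {z1 z2 z3 z4 v p r : V} (hn : [z1, z2, z3, z4].Nodup)
    (hp : Cyc [z1, z2, z3, z4] v p) (hr : Cyc [z1, z2, z3, z4] r v) :
    ∃ o, [z1, z2, z3, z4] ~r [p, o, r, v] := by
  simp only [List.nodup_cons, List.mem_cons, List.not_mem_nil, or_false, not_or,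
    not_false_eq_true, List.nodup_nil, and_true] at hn
  obtain ⟨⟨n1, n2, n3⟩, ⟨n4, n5⟩, n6⟩ := hn
  rcases cyc4_iff.1 hp with ⟨rfl, rfl⟩ | ⟨rfl, rfl⟩ | ⟨rfl, rfl⟩ | ⟨rfl, rfl⟩ <;>
    rcases cyc4_iff.1 hr with ⟨rfl, e⟩ | ⟨rfl, e⟩ | ⟨rfl, e⟩ | ⟨rfl, e⟩
  · exact absurd e n1
  · exact absurd e n2
  · exact absurd e n3
  · exact ⟨z3, ⟨1, by simp [List.rotate]⟩⟩
  · exact ⟨z4, ⟨2, by simp [List.rotate]⟩⟩
  · exact absurd e n4
  · exact absurd e n5
  · exact absurd e.symm n1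
  · exact absurd e.symm n4
  · exact ⟨z1, ⟨3, by simp [List.rotate]⟩⟩
  · exact absurd e n6
  · exact absurd e.symm n2
  · exact absurd e.symm n5
  · exact absurd e.symm n6
  · exact ⟨z2, ⟨4, by simp [List.rotate]⟩⟩
  · exact absurd e.symm n3

/-- an inner vertex joined to two opposite vertices of the cycle is the only one -/
theorem Min4.only {z1 z2 z3 z4 : V} (hM : Min4 T X D z1 z2 z3 z4) (hT : Ts T D a b c)
    {v p o r w : V} (hrot : [z1, z2, z3, z4] ~r [p, o, r, v]) (hw : w ∈ verts X) (hwr : Re D w)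
    (hwZ : w ∉ [z1, z2, z3, z4]) (h1 : Adj X w p) (h2 : Adj X w r) :
    ∀ u, u ∈ verts X → Re D u → u ∉ [z1, z2, z3, z4] → u = w := by
  have cT := hT.pl.disc.cx
  have cX := hM.reg.disc.cx
  have hR' : Reg T X D (p :: ([o] ++ r :: [v])) := reg_rot hM.reg hrot
  have hwZ' : w ∉ p :: ([o] ++ r :: [v]) := fun h => hwZ (hrot.mem_iff.2 h)
  have hnd : [p, o, r, v].Nodup := hrot.nodup_iff.1 hM.reg.bd.nodup
  simp only [List.nodup_cons, List.mem_cons, List.not_mem_nil, or_false, not_or,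
    not_false_eq_true, List.nodup_nil, and_true] at hnd
  obtain ⟨⟨m1, m2, m3⟩, ⟨m4, m5⟩, m6⟩ := hnd
  -- `p`, `r` are not adjacent
  have hpr : ¬ Ar D p r := by
    intro h
    have hp : p ∈ [z1, z2, z3, z4] := hrot.mem_iff.2 (by simp)
    have hr : r ∈ [z1, z2, z3, z4] := hrot.mem_iff.2 (by simp)
    rcases hM.chl.ch p r hp hr h with k | k
    · rcases cyc4_iff.1 ((cyc_rot hrot _ _).1 k) with ⟨_, e⟩ | ⟨e, _⟩ | ⟨e, _⟩ | ⟨e, _⟩
      · exact m4 e.symm
      · exact m1 e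
      · exact m2 e
      · exact m3 e
    · rcases cyc4_iff.1 ((cyc_rot hrot _ _).1 k) with ⟨e, _⟩ | ⟨e, _⟩ | ⟨_, e⟩ | ⟨e, _⟩
      · exact m2 e.symm
      · exact m4 e.symm
      · exact m3 e
      · exact m6 e
  obtain ⟨X1, X2, e, s1, s2, r1, r2, hm⟩ := reg_two cT hR' hwZ' hwr h1.symm h2.symm
  have wo : o ≠ w := fun h => hwZ' (by simp [h])
  have wv : v ≠ w := fun h => hwZ' (by simp [h])
  have ho1 : o ∈ verts X1 := r1.bd.verts r1.disc.cx (by simp)
  have hv2 : v ∈ verts X2 := r2.bd.verts r2.disc.cx (by simp)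
  have un : ∀ {x y : V}, Adj X x y → Adj X1 x y ∨ Adj X2 x y := by
    intro x y h
    rcases h with ⟨t, ht⟩ | ⟨t, ht⟩
    · rw [e, Finset.mem_union] at ht
      rcases ht with ht | ht
      · exact Or.inl (Or.inl ⟨t, ht⟩)
      · exact Or.inr (Or.inl ⟨t, ht⟩)
    · rw [e, Finset.mem_union] at ht
      rcases ht with ht | ht
      · exact Or.inl (Or.inr ⟨t, ht⟩)
      · exact Or.inr (Or.inr ⟨t, ht⟩)
  have innX : ∀ {x : V}, Ar D x w → Adj X x w := by
    intro x h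
    exact ((hM.reg.adj_iff hT hw hwZ).2 (hT.pl.ar_adj (ar_symm h))).symm
  have in1 : ∀ u, u ∈ verts X1 → u ∉ [p, o, r, w] → u ∈ verts X ∧ u ∉ [z1, z2, z3, z4] := by
    intro u hu huC
    have huX := verts_mono s1 hu
    refine ⟨huX, fun h => ?_⟩
    have h' := hrot.mem_iff.1 h
    simp only [List.mem_cons, List.not_mem_nil, or_false] at h' huC
    rcases h' with rfl | rfl | rfl | rfl
    · exact huC (Or.inl rfl)
    · exact huC (Or.inr (Or.inl rfl))
    · exact huC (Or.inr (Or.inr (Or.inl rfl)))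
    · rcases hm _ hu hv2 with h | h | h
      · exact m3 h.symm
      · exact m6 h.symm
      · exact wv h
  have in2 : ∀ u, u ∈ verts X2 → u ∉ [r, v, p, w] → u ∈ verts X ∧ u ∉ [z1, z2, z3, z4] := by
    intro u hu huC
    have huX := verts_mono s2 hu
    refine ⟨huX, fun h => ?_⟩
    have h' := hrot.mem_iff.1 h
    simp only [List.mem_cons, List.not_mem_nil, or_false] at h' huC
    rcases h' with rfl | rfl | rfl | rfl
    · exact huC (Or.inr (Or.inr (Or.inl rfl)))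
    · rcases hm _ ho1 hu with h | h | h
      · exact m1 h.symm
      · exact m4 h
      · exact wo h
    · exact huC (Or.inl rfl)
    · exact huC (Or.inr (Or.inl rfl))
  have k1 := hM.part hT hw hwr hwZ r1 in1 hpr (by
    intro h
    rcases un (innX h) with k | k
    · exact k
    · exfalso
      rcases hm _ ho1 (adj_vert r2.disc.cx k).1 with h | h | h
      · exact m1 h.symm
      · exact m4 h
      · exact wo h)
  have k2 := hM.part hT hw hwr hwZ r2 in2 (fun h => hpr (ar_symm h)) (by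
    intro h
    rcases un (innX h) with k | k
    · exfalso
      rcases hm _ (adj_vert r1.disc.cx k).1 hv2 with h | h | h
      · exact m3 h.symm
      · exact m6 h.symm
      · exact wv h
    · exact k)
  intro u hu hur huZ
  have huZ' : u ∉ [p, o, r, v] := fun h => huZ (hrot.mem_iff.2 h)
  simp only [List.mem_cons, List.not_mem_nil, or_false, not_or] at huZ'
  obtain ⟨u1, u2, u3, u4⟩ := huZ'
  rw [e, verts_union, Finset.mem_union] at hu
  rcases hu with hu | hu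
  · have h := k1 u hu hur
    simp only [List.mem_cons, List.not_mem_nil, or_false] at h
    rcases h with h | h | h | h
    · exact absurd h u1
    · exact absurd h u2
    · exact absurd h u3
    · exact h
  · have h := k2 u hu hur
    simp only [List.mem_cons, List.not_mem_nil, or_false] at h
    rcases h with h | h | h | h
    · exact absurd h u3
    · exact absurd h u4
    · exact absurd h u1
    · exact h

/-- at least two inner real vertices: the hypotheses of the corner count -/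
theorem Min4.rg {z1 z2 z3 z4 : V} (hM : Min4 T X D z1 z2 z3 z4) (hT : Ts T D a b c)
    (h2 : ∀ w, w ∈ verts X → Re D w → w ∉ [z1, z2, z3, z4] →
      ∃ u, u ∈ verts X ∧ Re D u ∧ u ∉ [z1, z2, z3, z4] ∧ u ≠ w) :
    Rg T X D [z1, z2, z3, z4] := by
  have cT := hT.pl.disc.cx
  have cX := hM.reg.disc.cx
  have hnd := hM.reg.bd.nodup
  refine ⟨hM.reg, hM.chl, by simp, ?_, hM.inn, ?_⟩
  · intro w hw hwr hwZ p q o h1 h2' h3 h4 h5 h6 h7
    by_contra hcon
    rw [not_or] at hcon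
    obtain ⟨c1, c2⟩ := hcon
    have hwp := (hM.reg.adj_iff hT hw hwZ).2 (hT.pl.ar_adj h1)
    have hwq := (hM.reg.adj_iff hT hw hwZ).2 (hT.pl.ar_adj h2')
    have hp := (adj_vert cX hwp).2.1
    have hq := (adj_vert cX hwq).2.1
    by_cases ho : o ∈ verts X
    · have e1 := reg_edge hT hM.reg hM.chl hp ho h6
      have e2 := reg_edge hT hM.reg hM.chl hq ho h7
      rcases cut4_q hT hM.reg hwp e1 e2.symm hwq.symm h5.symm h3 hwr (ar_re h1).2 (ar_re h6).2
        (ar_re h2').2 c1 h4 with ⟨Y, p', q', _, k1, k2⟩ | h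
      · have m1 := hM.min _ _ _ _ _ k1
        have m2 : nin Y D [w, p', o, q'] < nin X D [z1, z2, z3, z4] :=
          nin_lt (fun v hv _ hvC => k2 v hv hvC) hw hwr hwZ (fun _ => by simp)
        omega
      · exact c2 h
    · have onZ : ∀ {x : V}, x ∈ verts X → Ar D x o → x ∈ [z1, z2, z3, z4] := by
        intro x hx hxo
        by_contra hxZ
        exact ho (adj_vert cX ((hM.reg.adj_iff hT hx hxZ).2 (hT.pl.ar_adj hxo))).2.1
      have hpZ := onZ hp h6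
      have hqZ := onZ hq h7
      -- the vertex between `p` and `q`
      have hnot : ¬ Cyc [z1, z2, z3, z4] p q ∧ ¬ Cyc [z1, z2, z3, z4] q p :=
        ⟨fun h => h4 (hM.chl.arc _ _ h), fun h => h4 (ar_symm (hM.chl.arc _ _ h))⟩
      have hv : ∃ v, Cyc [z1, z2, z3, z4] v p ∧ Cyc [z1, z2, z3, z4] q v := by
        obtain ⟨n1, n2⟩ := hnot
        rw [cyc4_iff] at n1 n2
        simp only [List.mem_cons, List.not_mem_nil, or_false] at hpZ hqZ
        rcases hpZ with rfl | rfl | rfl | rfl <;> rcases hqZ with rfl | rfl | rfl | rfl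
        · exact absurd rfl h3
        · exact absurd (Or.inl ⟨rfl, rfl⟩) n1
        · exact ⟨z4, cyc4_iff.2 (Or.inr (Or.inr (Or.inr ⟨rfl, rfl⟩))),
            cyc4_iff.2 (Or.inr (Or.inr (Or.inl ⟨rfl, rfl⟩)))⟩
        · exact absurd (Or.inr (Or.inr (Or.inr ⟨rfl, rfl⟩))) n2
        · exact absurd (Or.inl ⟨rfl, rfl⟩) n2
        · exact absurd rfl h3
        · exact absurd (Or.inr (Or.inl ⟨rfl, rfl⟩)) n1
        · exact ⟨z1, cyc4_iff.2 (Or.inl ⟨rfl, rfl⟩),
            cyc4_iff.2 (Or.inr (Or.inr (Or.inr ⟨rfl, rfl⟩)))⟩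
        · exact ⟨z2, cyc4_iff.2 (Or.inr (Or.inl ⟨rfl, rfl⟩)), cyc4_iff.2 (Or.inl ⟨rfl, rfl⟩)⟩
        · exact absurd (Or.inr (Or.inl ⟨rfl, rfl⟩)) n2
        · exact absurd rfl h3
        · exact absurd (Or.inr (Or.inr (Or.inl ⟨rfl, rfl⟩))) n1
        · exact absurd (Or.inr (Or.inr (Or.inr ⟨rfl, rfl⟩))) n1
        · exact ⟨z3, cyc4_iff.2 (Or.inr (Or.inr (Or.inl ⟨rfl, rfl⟩))),
            cyc4_iff.2 (Or.inr (Or.inl ⟨rfl, rfl⟩))⟩
        · exact absurd (Or.inr (Or.inr (Or.inl ⟨rfl, rfl⟩))) n2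
        · exact absurd rfl h3
      obtain ⟨v, v1, v2⟩ := hv
      obtain ⟨o', hrot⟩ := rot4 hnd v1 v2
      obtain ⟨u, u1, u2, u3, u4⟩ := h2 w hw hwr hwZ
      exact u4 (hM.only hT hrot hw hwr hwZ hwp hwq u u1 u2 u3)
  · intro v p r hp hr w hw hwZ hwr h1 h3
    obtain ⟨o, hrot⟩ := rot4 hnd hp hr
    obtain ⟨u, u1, u2, u3, u4⟩ := h2 w hw hwr hwZ
    exact u4 (hM.only hT hrot hw hwr hwZ h1 h3 u u1 u2 u3)

/-- the star of four real faces -/
structure Star4 (T : Finset (V × V × V)) (D : V → V → Prop) (a b c v z1 z2 z3 z4 : V) : Prop where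
  re : Re D v
  inn : ¬ Tr a b c v
  f1 : (v, z1, z2) ∈ T
  f2 : (v, z2, z3) ∈ T
  f3 : (v, z3, z4) ∈ T
  f4 : (v, z4, z1) ∈ T
  nb : ∀ u, Adj T v u ↔ u = z1 ∨ u = z2 ∨ u = z3 ∨ u = z4
  ar : ∀ u, Ar D v u ↔ u = z1 ∨ u = z2 ∨ u = z3 ∨ u = z4
  n13 : ¬ Ar D z1 z3
  n24 : ¬ Ar D z2 z4

theorem Min4.star [Infinite V] {z1 z2 z3 z4 : V} (hM4 : Min4 T X D z1 z2 z3 z4) (hF : FanT V)
    (hM : MCw T D a b c) (hT : Ts T D a b c) {v : V} (hv : v ∈ verts X) (hvr : Re D v)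
    (hvZ : v ∉ [z1, z2, z3, z4])
    (honly : ∀ u, u ∈ verts X → Re D u → u ∉ [z1, z2, z3, z4] → u = v) :
    Star4 T D a b c v z1 z2 z3 z4 := by
  have cT := hT.pl.disc.cx
  have cX := hM4.reg.disc.cx
  have hvT := hM4.reg.inner hT hv hvZ
  have irr : ∀ u, ¬ D u u := fun u h => hT.pl.asymm u u h h
  have hin : ∀ u, Ar D v u → u = z1 ∨ u = z2 ∨ u = z3 ∨ u = z4 := by
    intro u hu
    have h1 := (hM4.reg.adj_iff hT hv hvZ).2 (hT.pl.ar_adj hu)
    have h2 := (adj_vert cX h1).2.1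
    by_contra hc
    have := honly u h2 (ar_re hu).2 (fun h => hc (by simpa using h))
    subst this
    exact adj_ne cX h1 rfl
  have a1 : Ar D v z1 := by
    by_contra hc
    refine Pool.Agent.H80.G4.red_deg3 hF hM hT hvT hvr (x := z2) (y := z3) (z := z4) (fun u hu => ?_)
    rcases hin u hu with rfl | h
    · exact absurd hu hc
    · exact h
  have a2 : Ar D v z2 := by
    by_contra hc
    refine Pool.Agent.H80.G4.red_deg3 hF hM hT hvT hvr (x := z1) (y := z3) (z := z4) (fun u hu => ?_)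
    rcases hin u hu with h | rfl | h
    · exact Or.inl h
    · exact absurd hu hc
    · exact Or.inr h
  have a3 : Ar D v z3 := by
    by_contra hc
    refine Pool.Agent.H80.G4.red_deg3 hF hM hT hvT hvr (x := z1) (y := z2) (z := z4) (fun u hu => ?_)
    rcases hin u hu with h | h | rfl | h
    · exact Or.inl h
    · exact Or.inr (Or.inl h)
    · exact absurd hu hc
    · exact Or.inr (Or.inr h)
  have a4 : Ar D v z4 := by
    by_contra hc
    refine Pool.Agent.H80.G4.red_deg3 hF hM hT hvT hvr (x := z1) (y := z2) (z := z3) (fun u hu => ?_)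
    rcases hin u hu with h | h | h | rfl
    · exact Or.inl h
    · exact Or.inr (Or.inl h)
    · exact Or.inr (Or.inr h)
    · exact absurd hu hc
  have face : ∀ {x y : V}, Cyc [z1, z2, z3, z4] x y → Ar D v x → Ar D v y → (v, x, y) ∈ T := by
    intro x y hc hx hy
    rcases hT.fc v x y (hT.pl.ar_adj hx) (hT.pl.ar_adj (hM4.chl.arc _ _ hc))
      (hT.pl.ar_adj (ar_symm hy)) with (h | h) | ⟨h, _⟩
    · exact h
    · have h1 := hM4.reg.tri_in hv hvZ h
      exact absurd ⟨v, (rot3 cX h1).1⟩ (bd_cyc hM4.reg.bd hc).2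
    · exact absurd h hvT
  have f1 := face (cyc4_iff.2 (Or.inl ⟨rfl, rfl⟩)) a1 a2
  have f2 := face (cyc4_iff.2 (Or.inr (Or.inl ⟨rfl, rfl⟩))) a2 a3
  have f3 := face (cyc4_iff.2 (Or.inr (Or.inr (Or.inl ⟨rfl, rfl⟩)))) a3 a4
  have f4 := face (cyc4_iff.2 (Or.inr (Or.inr (Or.inr ⟨rfl, rfl⟩)))) a4 a1
  have hnd := hM4.reg.bd.nodup
  simp only [List.nodup_cons, List.mem_cons, List.not_mem_nil, or_false, not_or,
    not_false_eq_true, List.nodup_nil, and_true] at hnd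
  obtain ⟨⟨n1, n2, n3⟩, ⟨n4, n5⟩, n6⟩ := hnd
  have nch : ∀ {x y : V}, x ∈ [z1, z2, z3, z4] → y ∈ [z1, z2, z3, z4] →
      ¬ Cyc [z1, z2, z3, z4] x y → ¬ Cyc [z1, z2, z3, z4] y x → ¬ Ar D x y :=
    fun hx hy k1 k2 h => (hM4.chl.ch _ _ hx hy h).elim k1 k2
  refine ⟨hvr, hvT, f1, f2, f3, f4, ?_, fun u => ⟨hin u, ?_⟩, ?_, ?_⟩
  · intro u
    constructor
    · intro hu
      have hvl : v ∉ [a, b, c] := by
        intro h
        apply hvT
        simpa [Tr] using h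
      obtain ⟨L, l1, l2, l3, l4, l5⟩ := link hT.pl.disc hT.pl.bd (hT.pl.re_mem hvr) hvl
      have hu' := (l5 u).1 hu
      have c1 := (l4 _ _).1 f1
      have c2 := (l4 _ _).1 f2
      have c3 := (l4 _ _).1 f3
      have c4 := (l4 _ _).1 f4
      refine cyc_closed (P := fun u => u = z1 ∨ u = z2 ∨ u = z3 ∨ u = z4) (cyc_mem c1).1
        (Or.inl rfl) ?_ u hu'
      rintro x y hxy (rfl | rfl | rfl | rfl)
      · exact Or.inr (Or.inl (cyc_unique l1 hxy c1))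
      · exact Or.inr (Or.inr (Or.inl (cyc_unique l1 hxy c2)))
      · exact Or.inr (Or.inr (Or.inr (cyc_unique l1 hxy c3)))
      · exact Or.inl (cyc_unique l1 hxy c4)
    · rintro (rfl | rfl | rfl | rfl)
      · exact hT.pl.ar_adj a1
      · exact hT.pl.ar_adj a2
      · exact hT.pl.ar_adj a3
      · exact hT.pl.ar_adj a4
  · rintro (rfl | rfl | rfl | rfl)
    · exact a1
    · exact a2
    · exact a3
    · exact a4
  · refine nch (by simp) (by simp) ?_ ?_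
    · rw [cyc4_iff]
      rintro (⟨_, h⟩ | ⟨h, _⟩ | ⟨h, _⟩ | ⟨h, _⟩)
      · exact n4 h.symm
      · exact n1 h
      · exact n2 h
      · exact n3 h
    · rw [cyc4_iff]
      rintro (⟨h, _⟩ | ⟨h, _⟩ | ⟨_, h⟩ | ⟨h, _⟩)
      · exact n2 h.symm
      · exact n4 h.symm
      · exact n3 h
      · exact n6 h
  · refine nch (by simp) (by simp) ?_ ?_
    · rw [cyc4_iff]
      rintro (⟨h, _⟩ | ⟨_, h⟩ | ⟨h, _⟩ | ⟨h, _⟩)
      · exact n1 h.symm
      · exact n6 h.symm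
      · exact n4 h
      · exact n5 h
    · rw [cyc4_iff]
      rintro (⟨h, _⟩ | ⟨h, _⟩ | ⟨h, _⟩ | ⟨_, h⟩)
      · exact n3 h.symm
      · exact n5 h.symm
      · exact n6 h.symm
      · exact n1 h.symm

/-- **Lemma 1, geometric half.** -/
theorem four_geo [Infinite V] (hF : FanT V) (hM : MCw T D a b c) (hT : Ts T D a b c) {v : V}
    (hg : ¬ Good T D v) :
    (∃ X z1 z2 z3 z4, Rg T X D [z1, z2, z3, z4] ∧ Min4 T X D z1 z2 z3 z4) ∨
      ∃ v z1 z2 z3 z4, Star4 T D a b c v z1 z2 z3 z4 := by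
  obtain ⟨X, z1, z2, z3, z4, hX⟩ := exists_min4 (exists_q4 hT hg)
  by_cases h : ∃ w, w ∈ verts X ∧ Re D w ∧ w ∉ [z1, z2, z3, z4] ∧
      ∀ u, u ∈ verts X → Re D u → u ∉ [z1, z2, z3, z4] → u = w
  · obtain ⟨w, w1, w2, w3, w4⟩ := h
    exact Or.inr ⟨w, z1, z2, z3, z4, hX.star hF hM hT w1 w2 w3 w4⟩
  · left
    refine ⟨X, z1, z2, z3, z4, hX.rg hT ?_, hX⟩
    intro w w1 w2 w3
    by_contra hc
    push Not at hc
    exact h ⟨w, w1, w2, w3, hc⟩

end Pool.Agent.H96.G4
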